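import Pool.Agent.Q246.NR2.Win

/-!
# Several shifts of one point
-/

set_option autoImplicit false

open Module

namespace Pool.Agent.Q246.NR2

open Pool.Agent.Q246.NR Pool.Agent.Y916.Al

lemma len_rename {σ σ' : Type} (e : σ → σ') (P : MvPolynomial σ ℤ) : len (MvPolynomial.rename e P) ≤ len P := by
  conv_lhs => rw [MvPolynomial.as_sum P, map_sum]
  refine (len_sum _ _).trans ?_
  rw [len]
  refine Finset.sum_le_sum fun d _ => ?_
  rw [MvPolynomial.rename_monomial, len_monomial]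

lemma Low.rename {σ σ' : Type} {v : σ → ℂ} {D B : ℕ} (h : Low v D B) (e : σ' → σ) (he : Function.Injective e) :
    Low (fun i => v (e i)) D B := by
  obtain ⟨H₀, hH₀⟩ := h
  refine ⟨H₀, fun H hH Q hQ hd hl => ?_⟩
  have h1 := hH₀ H hH (MvPolynomial.rename e Q)
    (fun h0 => hQ (MvPolynomial.rename_injective _ he (h0.trans (map_zero _).symm)))
    ((MvPolynomial.totalDegree_rename_le _ _).trans hd) ((len_rename e Q).trans hl)
  rw [MvPolynomial.aeval_rename] at h1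
  exact h1

/-- a left inverse -/
def Retr {κ κ' : Type} (F : κ' → MvPolynomial κ ℂ) : Prop :=
  ∃ ψ : MvPolynomial κ ℂ →ₐ[ℂ] MvPolynomial κ' ℂ, ∀ k', ψ (F k') = MvPolynomial.X k'

lemma Retr.indep {κ κ' : Type} {F : κ' → MvPolynomial κ ℂ} (h : Retr F) : AlgebraicIndependent ℂ F := by
  obtain ⟨ψ, h⟩ := h
  rw [algebraicIndependent_iff]
  intro p hp
  have h1 : ψ (MvPolynomial.aeval F p) = p := by
    rw [MvPolynomial.comp_aeval_apply]
    simp only [h]
    exact MvPolynomial.aeval_X_left_apply p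
  rw [← h1, hp, map_zero]

/-- affine changes of variables -/
lemma retr_affine {κ : Type} {F : κ → MvPolynomial κ ℂ} (a b : κ → ℂ) (ha : ∀ k, a k ≠ 0)
    (hF : ∀ k, F k = MvPolynomial.C (a k) * MvPolynomial.X k + MvPolynomial.C (b k)) : Retr F := by
  refine ⟨MvPolynomial.aeval fun k => MvPolynomial.C (a k)⁻¹ * (MvPolynomial.X k - MvPolynomial.C (b k)), fun k => ?_⟩
  rw [hF, map_add, map_mul, MvPolynomial.aeval_X, MvPolynomial.aeval_C, MvPolynomial.aeval_C]
  change MvPolynomial.C (a k) * (MvPolynomial.C (a k)⁻¹ * (MvPolynomial.X k - MvPolynomial.C (b k))) +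
    MvPolynomial.C (b k) = MvPolynomial.X k
  rw [← mul_assoc, ← map_mul, mul_inv_cancel₀ (ha k), map_one, one_mul]
  ring

/-- the link, with a left inverse -/
def LinkR {κ κ' : Type} (val : ℂ → ℕ → κ → ℂ) (y : ℂ → κ' → ℂ) (Dm : ℂ → Prop) (G : ℤ) (υ : Type) (m D₀ E : ℕ) :
    Prop :=
  ∀ (K : IntermediateField ℚ ℂ) (ξ : K), FiniteDimensional ℚ K → finrank ℚ K ≤ m → ∃ u : υ → ℂ,
    ∀ g : ℕ, 1 ≤ g → ((g : ℝ) + 2) ^ E ≤ ‖(ξ : ℂ)‖ → Dm ((ξ : ℂ) + G * g) →
    ∃ F : κ' → MvPolynomial (κ ⊕ υ) ℤ, (∀ k', (F k').totalDegree ≤ D₀) ∧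
      Retr (fun k' => MvPolynomial.aeval (Sum.elim MvPolynomial.X (fun j => MvPolynomial.C (u j)))
        (F k') : κ' → MvPolynomial κ ℂ) ∧
      ∀ k', y ((ξ : ℂ) + G * g) k' = MvPolynomial.aeval (Sum.elim (val ξ g) u) (F k')

lemma LinkR.toN {κ κ' : Type} {val : ℂ → ℕ → κ → ℂ} {y : ℂ → κ' → ℂ} {Dm : ℂ → Prop} {G : ℤ} {υ : Type} {m D₀ E : ℕ}
    (h : LinkR val y Dm G υ m D₀ E) : LinkN val y Dm G υ m D₀ E := by
  intro K ξ hK hm
  obtain ⟨u, hu⟩ := h K ξ hK hm
  refine ⟨u, fun g hg hgξ hD => ?_⟩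
  obtain ⟨F, h1, h2, h3⟩ := hu g hg hgξ hD
  exact ⟨F, h1, h2.indep, h3⟩

lemma base_shift (G g : ℕ) : (((G * g + G : ℕ) : ℝ) + 2) ≤ ((g : ℝ) + 2) ^ (G + 2) := by
  have h1 : G + 1 ≤ 2 ^ G := Nat.lt_two_pow_self
  have h2 : G * g + G + 2 ≤ (g + 2) ^ (G + 2) := by
    have h3 : 2 ^ G ≤ (g + 2) ^ G := Nat.pow_le_pow_left (by omega) _
    have h4 : (G + 1) * ((g + 2) * (g + 2)) ≤ (g + 2) ^ G * ((g + 2) * (g + 2)) :=
      Nat.mul_le_mul_right _ (h1.trans h3)
    have h5 : (g + 2) ^ (G + 2) = (g + 2) ^ G * ((g + 2) * (g + 2)) := by ring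
    rw [h5]
    refine le_trans ?_ h4
    have h6 : (G + 1) * ((g + 2) * 2) ≤ (G + 1) * ((g + 2) * (g + 2)) :=
      Nat.mul_le_mul_left _ (Nat.mul_le_mul_left _ (by omega))
    refine le_trans ?_ h6
    nlinarith [Nat.zero_le (G * g)]
  exact_mod_cast h2

/-- the link for several shifts -/
theorem link_shift {κ κ' υ : Type} {val : ℂ → ℕ → κ → ℂ} {x : ℂ → κ' → ℂ} {Dm : ℂ → Prop} {m D₀ E : ℕ}
    (hl : LinkR val x Dm 1 υ m D₀ E) {r : ℕ} (θ : Fin r → ℕ) (G : ℕ) (hG : ∀ j, θ j < G) (hG1 : 1 ≤ G) :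
    LinkR (fun ξ g (p : Fin r × κ) => val ξ (G * g + θ p.1) p.2) (fun ξ (p : Fin r × κ') => x (ξ + θ p.1) p.2)
      (fun ξ => ∀ j, Dm (ξ + θ j)) G υ m D₀ ((G + 2) * E) := by
  intro K ξ hK hm
  obtain ⟨u, hu⟩ := hl K ξ hK hm
  refine ⟨u, fun g hg hgξ hD => ?_⟩
  have hpt : ∀ j, (ξ : ℂ) + ((G : ℤ) : ℂ) * g + θ j = (ξ : ℂ) + ((1 : ℤ) : ℂ) * ((G * g + θ j : ℕ) : ℂ) := by
    intro j
    push_cast
    ring
  have hF : ∀ j : Fin r, ∃ F : κ' → MvPolynomial (κ ⊕ υ) ℤ, (∀ k', (F k').totalDegree ≤ D₀) ∧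
      Retr (fun k' => MvPolynomial.aeval (Sum.elim MvPolynomial.X (fun j => MvPolynomial.C (u j)))
        (F k') : κ' → MvPolynomial κ ℂ) ∧
      ∀ k', x ((ξ : ℂ) + ((1 : ℤ) : ℂ) * ((G * g + θ j : ℕ) : ℂ)) k' =
        MvPolynomial.aeval (Sum.elim (val ξ (G * g + θ j)) u) (F k') := by
    intro j
    refine hu (G * g + θ j) ?_ ?_ ?_
    · have : 1 ≤ G * g := Nat.one_le_iff_ne_zero.2 (by positivity)
      omega
    · have h1 : ((G * g + θ j : ℕ) : ℝ) ≤ ((G * g + G : ℕ) : ℝ) := by exact_mod_cast Nat.add_le_add_left (hG j).le _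
      have h2 : ((G * g + θ j : ℕ) : ℝ) + 2 ≤ ((g : ℝ) + 2) ^ (G + 2) := by
        have := base_shift G g
        linarith
      refine le_trans (pow_le_pow_left₀ (by positivity) h2 _) ?_
      rw [← pow_mul]
      exact hgξ
    · rw [← hpt]
      exact hD j
  choose F hF1 hF2 hF3 using hF
  choose ψ hψ using hF2
  refine ⟨fun p => MvPolynomial.rename (Sum.map (fun k => (p.1, k)) id) (F p.1 p.2), fun p => ?_, ?_, fun p => ?_⟩
  · exact (MvPolynomial.totalDegree_rename_le _ _).trans (hF1 p.1 p.2)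
  · refine ⟨MvPolynomial.aeval fun q : Fin r × κ => MvPolynomial.rename (fun k' => (q.1, k')) (ψ q.1 (MvPolynomial.X q.2)),
      fun p => ?_⟩
    have h1 : (MvPolynomial.aeval (Sum.elim MvPolynomial.X (fun j => MvPolynomial.C (u j)))
        (MvPolynomial.rename (Sum.map (fun k => (p.1, k)) id) (F p.1 p.2)) : MvPolynomial (Fin r × κ) ℂ) =
        MvPolynomial.rename (fun k => (p.1, k)) (MvPolynomial.aeval (Sum.elim MvPolynomial.X
          (fun j => MvPolynomial.C (u j))) (F p.1 p.2) : MvPolynomial κ ℂ) := by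
      rw [MvPolynomial.aeval_rename]
      have h2 := MvPolynomial.eval₂_comp_left (MvPolynomial.rename (R := ℂ) fun k => (p.1, k)).toRingHom
        (algebraMap ℤ (MvPolynomial κ ℂ)) (Sum.elim MvPolynomial.X (fun j => MvPolynomial.C (u j))) (F p.1 p.2)
      refine Eq.trans ?_ h2.symm
      rw [MvPolynomial.aeval_def]
      congr 1
      · exact RingHom.ext_int _ _
      · funext q
        rcases q with k | j
        · simp
        · simp
    beta_reduce
    rw [h1]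
    have h2 : (MvPolynomial.aeval fun q : Fin r × κ => MvPolynomial.rename (fun k' => (q.1, k'))
        (ψ q.1 (MvPolynomial.X q.2))).comp (MvPolynomial.rename fun k => (p.1, k)) =
        (MvPolynomial.rename fun k' => (p.1, k')).comp (ψ p.1) := by
      ext k : 1
      simp
    have h3 := AlgHom.congr_fun h2 (MvPolynomial.aeval (Sum.elim MvPolynomial.X
          (fun j => MvPolynomial.C (u j))) (F p.1 p.2) : MvPolynomial κ ℂ)
    simp only [AlgHom.comp_apply] at h3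
    rw [h3, hψ, MvPolynomial.rename_X]
  · beta_reduce
    rw [hpt, hF3, MvPolynomial.aeval_rename]
    congr 2
    funext q
    rcases q with k | j <;> rfl

/-- the input for several shifts -/
theorem inp_shift {κ : Type} {val : ℂ → ℕ → κ → ℂ} (hval : InpN val) {r : ℕ} (θ : Fin r → ℕ)
    (hθ : Function.Injective θ) (G : ℕ) (hG : ∀ j, θ j < G) (hG1 : 1 ≤ G) :
    InpN (fun ξ g (p : Fin r × κ) => val ξ (G * g + θ p.1) p.2) := by
  intro N D d A
  obtain ⟨E, B, hE⟩ := hval (N * r) D d A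
  refine ⟨(G + 2) * E, B, fun H K ξ X hK hd hPt hξ hX g hg hgH => ?_⟩
  set e := (finProdFinEquiv (m := N) (n := r)).symm with he
  have h1 := hE (G * H + G) K ξ X hK hd hPt (by
    refine le_trans (pow_le_pow_left₀ (by positivity) (base_shift G H) _) ?_
    rw [← pow_mul]
    exact hξ) hX (fun q => G * g (e q).1 + θ (e q).2) (by
    intro q q' hqq
    have h2 : G * g (e q).1 + θ (e q).2 = G * g (e q').1 + θ (e q').2 := hqq
    clear hqq
    have h3 : θ (e q).2 = θ (e q').2 := by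
      have h4 := congrArg (· % G) h2
      simp only [Nat.mul_add_mod, Nat.mod_eq_of_lt (hG _)] at h4
      exact h4
    have h4 : g (e q).1 = g (e q').1 := by
      rw [h3] at h2
      exact Nat.eq_of_mul_eq_mul_left hG1 (by omega)
    exact e.injective (Prod.ext (hg h4) (hθ h3))) (by
    intro q
    have h2 := hgH (e q).1
    have h3 := hG (e q).2
    constructor
    · have : 1 ≤ G * g (e q).1 := Nat.one_le_iff_ne_zero.2 (Nat.mul_ne_zero (by omega) (by omega))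
      omega
    · have : G * g (e q).1 ≤ G * H := Nat.mul_le_mul_left _ h2.2
      omega)
  have h2 := Low.rename h1 (fun p : Fin N × (Fin r × κ) => (e.symm (p.1, p.2.1), p.2.2)) (by
    rintro ⟨i, j, k⟩ ⟨i', j', k'⟩ h
    simp only [Prod.mk.injEq, EmbeddingLike.apply_eq_iff_eq] at h
    obtain ⟨⟨rfl, rfl⟩, rfl⟩ := h
    rfl)
  simp only [Equiv.apply_symm_apply] at h2
  exact h2

end Pool.Agent.Q246.NR2
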