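import Pool.Agent.Q246.NR2.ValcSN
import Pool.Agent.Q246.NR2.Shift
import Pool.Agent.Y71.SLW.WPC

/-!
# Elliptic logarithms: the link
-/

set_option autoImplicit false

open Module PowerSeries

namespace Pool.Agent.Q246.NR2

open Pool.Agent.Y113 Pool.Agent.Y916.AW Pool.Agent.Y916.Al Pool.Agent.Y916.Hy Pool.Agent.Y916.Sa Pool.Agent.Y916.Sl
open scoped PeriodPair

variable (a b : ℚ)

theorem inpN_e (hF : Good (Fe a b)) : InpN (vS (Pe a b) (me a b)) :=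
  inpN_S (fun _ => ⟨⟨hF.odd, hF.deg, hF.pos⟩, by
    have := hF.deg
    simp only [me, Pe]
    omega⟩) (li_e a b hF)

/-- the three numbers at `α`, for arbitrary determinations `p` of the elliptic logarithm and `l` of the logarithm -/
noncomputable def yE (L : PeriodPair) (p l : ℂ → ℂ) (α : ℂ) (i : Tau (me a b)) : ℂ :=
  trip L (p α) (l α) (fe a b i)

/-- the domain -/
def DE (L : PeriodPair) (p : ℂ → ℂ) (α : ℂ) : Prop := p α ∉ L.lattice ∧ ℘[L] (p α) = α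

/-- the constants -/
noncomputable def uE (L : PeriodPair) (s ξ : ℂ) : Fin 5 ⊕ Fin 3 → ℂ :=
  Sum.elim (perV L) ![s / 2, 1 / (2 * s), Complex.log ξ]

/-- the polynomials -/
noncomputable def FE (ε m₁ m₂ k : ℤ) : Tau (me a b) → MvPolynomial (Tau (me a b) ⊕ (Fin 5 ⊕ Fin 3)) ℤ
  | Sum.inl ⟨i, j⟩ => if (j : ℕ) = 0 then
      MvPolynomial.C ε * (MvPolynomial.X (Sum.inr (Sum.inr 0)) * MvPolynomial.X (Sum.inl (Sum.inl ⟨i, j⟩))) +
      MvPolynomial.C m₁ * MvPolynomial.X (Sum.inr (Sum.inl 0)) + MvPolynomial.C m₂ * MvPolynomial.X (Sum.inr (Sum.inl 1))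
    else
      MvPolynomial.C (-ε) * (MvPolynomial.X (Sum.inr (Sum.inr 1)) * MvPolynomial.X (Sum.inl (Sum.inl ⟨i, j⟩))) +
      MvPolynomial.C (2 * m₁) * MvPolynomial.X (Sum.inr (Sum.inl 2)) +
      MvPolynomial.C (2 * m₂) * MvPolynomial.X (Sum.inr (Sum.inl 3))
  | Sum.inr u => MvPolynomial.X (Sum.inl (Sum.inr u)) + MvPolynomial.X (Sum.inr (Sum.inr 2)) +
      MvPolynomial.C k * MvPolynomial.X (Sum.inr (Sum.inl 4))

lemma deg_CX {σ : Type} (n : ℤ) (x : σ) : (MvPolynomial.C n * MvPolynomial.X x : MvPolynomial σ ℤ).totalDegree ≤ 2 := by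
  refine (MvPolynomial.totalDegree_mul _ _).trans ?_
  rw [MvPolynomial.totalDegree_C, MvPolynomial.totalDegree_X]
  norm_num

lemma deg_CXX {σ : Type} (n : ℤ) (x y : σ) :
    (MvPolynomial.C n * (MvPolynomial.X x * MvPolynomial.X y) : MvPolynomial σ ℤ).totalDegree ≤ 2 := by
  refine (MvPolynomial.totalDegree_mul _ _).trans ?_
  have h := MvPolynomial.totalDegree_mul (MvPolynomial.X x : MvPolynomial σ ℤ) (MvPolynomial.X y)
  rw [MvPolynomial.totalDegree_X, MvPolynomial.totalDegree_X] at h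
  rw [MvPolynomial.totalDegree_C]
  omega

lemma deg_add2 {σ : Type} {p q : MvPolynomial σ ℤ} (hp : p.totalDegree ≤ 2) (hq : q.totalDegree ≤ 2) :
    (p + q).totalDegree ≤ 2 := (MvPolynomial.totalDegree_add _ _).trans (max_le hp hq)

lemma FE_deg (ε m₁ m₂ k : ℤ) (i : Tau (me a b)) : (FE a b ε m₁ m₂ k i).totalDegree ≤ 2 := by
  rcases i with ⟨i, j⟩ | u
  · simp only [FE]
    split_ifs
    · exact deg_add2 (deg_add2 (deg_CXX _ _ _) (deg_CX _ _)) (deg_CX _ _)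
    · exact deg_add2 (deg_add2 (deg_CXX _ _ _) (deg_CX _ _)) (deg_CX _ _)
  · simp only [FE]
    refine deg_add2 (deg_add2 ?_ ?_) (deg_CX _ _)
    · rw [MvPolynomial.totalDegree_X]; norm_num
    · rw [MvPolynomial.totalDegree_X]; norm_num

/-- the leading coefficients -/
noncomputable def aE (ε : ℤ) (s : ℂ) : Tau (me a b) → ℂ
  | Sum.inl ⟨_, j⟩ => if (j : ℕ) = 0 then ε * (s / 2) else -ε * (1 / (2 * s))
  | Sum.inr _ => 1

/-- the constant terms -/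
noncomputable def bE (L : PeriodPair) (m₁ m₂ k : ℤ) (ξ : ℂ) : Tau (me a b) → ℂ
  | Sum.inl ⟨_, j⟩ => if (j : ℕ) = 0 then m₁ * perV L 0 + m₂ * perV L 1 else 2 * m₁ * perV L 2 + 2 * m₂ * perV L 3
  | Sum.inr _ => Complex.log ξ + k * perV L 4

lemma FE_eval (L : PeriodPair) (s ξ : ℂ) (ε m₁ m₂ k : ℤ) (v : Tau (me a b) → ℂ) (i : Tau (me a b)) :
    MvPolynomial.aeval (Sum.elim v (uE L s ξ)) (FE a b ε m₁ m₂ k i) = aE a b ε s i * v i + bE a b L m₁ m₂ k ξ i := by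
  rcases i with ⟨i, j⟩ | u
  · simp only [FE, aE, bE]
    split_ifs
    · simp [uE]
      ring
    · simp [uE]
      ring
  · simp [FE, aE, bE, uE]
    ring

lemma FE_affine (L : PeriodPair) (s ξ : ℂ) (ε m₁ m₂ k : ℤ) (i : Tau (me a b)) :
    (MvPolynomial.aeval (Sum.elim MvPolynomial.X (fun j => MvPolynomial.C (uE L s ξ j))) (FE a b ε m₁ m₂ k i) :
      MvPolynomial (Tau (me a b)) ℂ) =
      MvPolynomial.C (aE a b ε s i) * MvPolynomial.X i + MvPolynomial.C (bE a b L m₁ m₂ k ξ i) := by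
  rcases i with ⟨i, j⟩ | u
  · simp only [FE, aE, bE]
    split_ifs
    · simp [uE]
      ring
    · have h2 : (MvPolynomial.C (2 : ℂ) : MvPolynomial (Tau (me a b)) ℂ) = 2 := map_ofNat MvPolynomial.C 2
      simp only [map_add, map_mul, MvPolynomial.aeval_X, MvPolynomial.aeval_C, Sum.elim_inl, Sum.elim_inr, uE,
        Matrix.cons_val_one, Matrix.cons_val_zero, map_neg, h2]
      simp
      ring
  · simp [FE, aE, bE, uE]
    ring

theorem link_ell (L : PeriodPair) (ha : L.g₂ = a) (hb : L.g₃ = b) (hF : Good (Fe a b)) (p l : ℂ → ℂ)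
    (hl : ∀ z, z ≠ 0 → Complex.exp (l z) = z) (m : ℕ) : ∃ E, LinkR (vS (Pe a b) (me a b)) (yE a b L p l) (DE L p) 1 (Fin 5 ⊕ Fin 3) m 2 E := by
  have hdeg : (Fe a b).natDegree - 1 = 2 := by rw [Fe_deg]
  set i₀ : Fin ((Fe a b).natDegree - 1) := ⟨0, by omega⟩ with hi₀
  set i₁ : Fin ((Fe a b).natDegree - 1) := ⟨1, by omega⟩ with hi₁
  obtain ⟨E, hE⟩ := Pool.Agent.Y71.SLW.t_wpc L a b ha hb hF i₀ i₁ rfl rfl
  refine ⟨E + 1, fun K₁ ξ hK₁f hK₁d => ?_⟩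
  obtain ⟨s, hs⟩ := IsAlgClosed.exists_pow_nat_eq (1 / (ξ : ℂ)) (show 0 < 2 by norm_num)
  refine ⟨uE L s ξ, fun g hg hgξ hD => ?_⟩
  have hone : ((ξ : ℂ) + ((1 : ℤ) : ℂ) * g) = (ξ : ℂ) + g := by push_cast; ring
  rw [hone] at hD
  have hg0 : (0 : ℝ) ≤ g := Nat.cast_nonneg g
  have hgE : ((g : ℝ) + 2) ^ E ≤ ‖(ξ : ℂ)‖ := (pow_le_pow_right₀ (by linarith) (by omega)).trans hgξ
  have hg2 : (g : ℝ) + 2 ≤ ‖(ξ : ℂ)‖ := (le_self_pow₀ (by linarith) (by omega)).trans hgξ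
  have hξn : 0 < ‖(ξ : ℂ)‖ := by linarith
  have hξ0 : (ξ : ℂ) ≠ 0 := norm_pos_iff.1 hξn
  have hs0 : s ≠ 0 := by
    rintro rfl
    rw [zero_pow two_ne_zero] at hs
    exact one_div_ne_zero hξ0 hs.symm
  have hα : 1 / s ^ 2 + (g : ℂ) = (ξ : ℂ) + g := by
    rw [hs, one_div_one_div]
  obtain ⟨h1, h2, h3⟩ := hE g s hs0 (by
    rw [← norm_pow, hs, norm_div, norm_one, div_mul_eq_mul_div, one_mul, div_le_one hξn]
    exact hgE)
  rw [hα] at h2
  obtain ⟨ε, m₁, m₂, hε, q1, q2⟩ := qp' L h1 hD.1 (by rw [hD.2, h2])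
  have hε0 : (ε : ℂ) ≠ 0 := by
    rcases hε with h | h <;> rw [h] <;> norm_num
  have hz : ‖(g : ℂ) * (1 / (ξ : ℂ))‖ < 1 := by
    rw [norm_mul, norm_div, norm_one, Complex.norm_natCast, mul_one_div, div_lt_one hξn]
    linarith
  have hz0 : (1 + (g : ℂ) * (1 / (ξ : ℂ))) ≠ 0 := by
    intro h
    have h5 : (g : ℂ) * (1 / (ξ : ℂ)) = -1 := by linear_combination h
    rw [h5] at hz
    simp at hz
  have hp0 : (ξ : ℂ) + g ≠ 0 := by
    intro h
    apply hz0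
    have h5 : (1 + (g : ℂ) * (1 / (ξ : ℂ))) = ((ξ : ℂ) + g) / ξ := by field_simp
    rw [h5, h, zero_div]
  obtain ⟨k, hk⟩ := log_mul_mem hξ0 hz0 (l := l ((ξ : ℂ) + g)) (by
    rw [hl _ hp0]
    field_simp)
  refine ⟨FE a b ε m₁ m₂ k, FE_deg a b ε m₁ m₂ k, ?_, fun i => ?_⟩
  · refine retr_affine (aE a b ε s) (bE a b L m₁ m₂ k ξ) (fun i => ?_) (FE_affine a b L s ξ ε m₁ m₂ k)
    rcases i with ⟨i, j⟩ | u
    · simp only [aE]
      split_ifs
      · exact mul_ne_zero hε0 (div_ne_zero hs0 two_ne_zero)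
      · exact mul_ne_zero (neg_ne_zero.2 hε0) (one_div_ne_zero (mul_ne_zero two_ne_zero hs0))
    · exact one_ne_zero
  · rw [FE_eval, hone]
    rw [hs] at h3 q1 q2
    rcases i with ⟨i, j⟩ | u
    · obtain rfl : i = 0 := Subsingleton.elim _ _
      obtain ⟨j, hj⟩ := j
      have hj2 : j < 2 := by
        have : me a b 0 = 2 := by simp [me, Fe_deg]
        omega
      interval_cases j
      · have e1 : yE a b L p l ((ξ : ℂ) + g) (Sum.inl ⟨0, ⟨0, hj⟩⟩) = p ((ξ : ℂ) + g) := rfl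
        have e2 : vS (Pe a b) (me a b) (ξ : ℂ) g (Sum.inl ⟨0, ⟨0, hj⟩⟩) = evc (1 / (ξ : ℂ)) (Yf (Fe a b) g (Sum.inl i₀)) := rfl
        rw [e1, e2]
        simp only [aE, bE, if_true]
        change _ = ε * (s / 2) * _ + ((m₁ : ℂ) * L.ω₁ + (m₂ : ℂ) * L.ω₂)
        linear_combination q1
      · have e1 : yE a b L p l ((ξ : ℂ) + g) (Sum.inl ⟨0, ⟨1, hj⟩⟩) = zeta L (p ((ξ : ℂ) + g)) := rfl
        have e2 : vS (Pe a b) (me a b) (ξ : ℂ) g (Sum.inl ⟨0, ⟨1, hj⟩⟩) = evc (1 / (ξ : ℂ)) (Yf (Fe a b) g (Sum.inl i₁)) := rfl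
        rw [e1, e2]
        simp only [aE, bE, one_ne_zero, if_false]
        change _ = -(ε : ℂ) * (1 / (2 * s)) * _ + (2 * (m₁ : ℂ) * zeta L (L.ω₁ / 2) + 2 * (m₂ : ℂ) * zeta L (L.ω₂ / 2))
        rw [q2, h3]
        push_cast
        ring
    · have e1 : yE a b L p l ((ξ : ℂ) + g) (Sum.inr u) = l ((ξ : ℂ) + g) := rfl
      have e2 : vS (Pe a b) (me a b) (ξ : ℂ) g (Sum.inr u) = Complex.log (1 + (g : ℂ) * (1 / (ξ : ℂ))) := evc_log hz
      rw [e1, e2]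
      simp only [aE, bE]
      change _ = 1 * _ + (Complex.log (ξ : ℂ) + (k : ℂ) * (2 * Real.pi * Complex.I))
      rw [← hk]
      ring

/-- few near relations between elliptic logarithms, quasi-logarithms and logarithms of several shifts -/
theorem win_ell (L : PeriodPair) (ha : L.g₂ = a) (hb : L.g₃ = b) (p l : ℂ → ℂ)
    (hl : ∀ z, z ≠ 0 → Complex.exp (l z) = z) (m : ℕ) {r : ℕ} (θ : Fin r → ℕ) (hθ : Function.Injective θ) : ∃ G : ℕ, 1 ≤ G ∧
    WinN (fun ξ (q : Fin r × Tau (me a b)) => yE a b L p l (ξ + θ q.1) q.2) (fun ξ => ∀ j, DE L p (ξ + θ j)) G m := by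
  classical
  have hab : a ^ 3 - 27 * b ^ 2 ≠ 0 := by
    have h1 := disc_ne Pool.Agent.Y153.HE.t_qp L
    rw [ha, hb] at h1
    exact_mod_cast h1
  have hF := Fe_good a b hab
  obtain ⟨E, hE⟩ := link_ell a b L ha hb hF p l hl m
  set G : ℕ := 1 + ∑ j, θ j with hG
  have hθG : ∀ j, θ j < G := by
    intro j
    have := Finset.single_le_sum (f := θ) (fun _ _ => Nat.zero_le _) (Finset.mem_univ j)
    omega
  refine ⟨G, by omega, ?_⟩
  exact win (inp_shift (inpN_e a b hF) θ hθ G hθG (by omega)) (link_shift hE θ G hθG (by omega)).toN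

end Pool.Agent.Q246.NR2
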