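import Pool.Agent.Q246.NR2.Fin

/-!
# Renaming variables
-/

set_option autoImplicit false

namespace Pool.Agent.Q246.NR2

/-- the measure for a subfamily -/
lemma Good.rename {σ σ' : Type} {g d B : ℕ} {ζ : Fin g → ℂ} {w : σ → ℂ} {H : ℝ} (e : σ' → σ)
    (he : Function.Injective e) (h : Good d B ζ w H) : Good d B ζ (fun j => w (e j)) H := by
  refine ⟨fun P hP hd hH => ?_, fun P hP i => ?_⟩
  · have h1 := h.1 (MvPolynomial.rename e P)
      (fun h0 => hP (MvPolynomial.rename_injective _ he (h0.trans (map_zero _).symm)))
      ((MvPolynomial.totalDegree_rename_le _ _).trans hd) (fun i => by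
        by_cases hi : (MvPolynomial.rename e P).coeff i = 0
        · rw [hi]
          have h0 : (0 : ℝ) ≤ H := (abs_nonneg _).trans (hH 0)
          simpa using h0
        · obtain ⟨u, hu, -⟩ := MvPolynomial.coeff_rename_ne_zero _ _ _ hi
          rw [← hu, MvPolynomial.coeff_rename_mapDomain _ he]
          exact hH u)
    rw [MvPolynomial.aeval_rename] at h1
    exact h1
  · have h1 := h.2 (MvPolynomial.rename e P)
      ⟨(MvPolynomial.totalDegree_rename_le _ _).trans hP.1, fun i => by
        by_cases hi : (MvPolynomial.rename e P).coeff i = 0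
        · rw [hi]
          refine ⟨by simp, fun f => ?_⟩
          have h0 : (0 : ℝ) ≤ H := (abs_nonneg _).trans ((hP.2 0).2 0)
          simpa using h0
        · obtain ⟨u, hu, -⟩ := MvPolynomial.coeff_rename_ne_zero _ _ _ hi
          rw [← hu, MvPolynomial.coeff_rename_mapDomain _ he]
          exact hP.2 u⟩ (Finsupp.mapDomain e i)
    rw [MvPolynomial.coeff_rename_mapDomain _ he] at h1
    refine h1.trans (le_of_eq ?_)
    rw [val, val, MvPolynomial.eval₂_rename]
    rfl

end Pool.Agent.Q246.NR2
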