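import Pool.Agent.Q246.NR2.PropN
import Pool.Agent.Q246.NR2.Ren

/-!
# The measures as proportions, without a condition on the points
-/

set_option autoImplicit false

open Module

namespace Pool.Agent.Q246.NR2

open Pool.Agent.Q246.NR Pool.Agent.Y916.Al Pool.Agent.Y916.Sl

/-- **Many heights, one exceptional set**, for almost all tuples of algebraic integers -/
theorem masterAll {κ : Type} [Fintype κ] [DecidableEq κ] (m : ℕ) (hm : 1 ≤ m) (y : ℂ → κ → ℂ) (Dm : ℂ → Prop)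
    (hD : ∀ z, Dm z) (G : ℤ) (hG : G ≠ 0) (hwin : WinN y Dm G m) (k g d : ℕ)
    (Gd : ℕ → (Fin g → ℂ) → (Fin k → ℂ) → ℝ → Prop)
    (hGd : ∀ B ζ (x : Fin k → ℂ) H, Good d B ζ (fun p : Fin k × κ => y (x p.1) p.2) H → Gd B ζ x H) :
    ∃ (B : ℕ) (C c : ℝ), 0 < c ∧ ∀ T : ℕ, 1 ≤ T →
    (∃ H₀ : ℝ, ∀ H₁ : ℝ, H₀ ≤ H₁ → ∀ ζ : Fin g → ℂ,
      (({x : Fin k → ℂ | (∀ j, SInt m T (x j)) ∧ ¬ ∀ H : ℝ, H₁ ≤ H → H ≤ H₁ ^ Real.exp ((T : ℝ) ^ c) →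
        Gd B ζ x H}.ncard : ℕ) : ℝ) ≤ C * (T : ℝ) ^ (-c) * (({ξ : ℂ | SInt m T ξ}.ncard : ℕ) : ℝ) ^ k) ∧
    ∀ ζ : Fin g → ℂ, (({x : Fin k → ℂ | (∀ j, SInt m T (x j)) ∧ ¬ ∀ N₀ : ℕ, ∃ N, N₀ ≤ N ∧
      (({j : ℕ | j < N ∧ ¬ ∀ H : ℝ, 2 ^ (2 ^ j) ≤ H → H ≤ 2 ^ (2 ^ (j + 1)) → Gd B ζ x H}.ncard : ℕ) : ℝ) ≤
          (T : ℝ) ^ (-c) * N}.ncard : ℕ) : ℝ) ≤ C * (T : ℝ) ^ (-c) * (({ξ : ℂ | SInt m T ξ}.ncard : ℕ) : ℝ) ^ k := by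
  obtain ⟨B, C, c, hc, h⟩ := masterNF' m hm y Dm G hG hwin k g d Gd (fun B ζ x H _ => hGd B ζ x H)
  refine ⟨B, C, c, hc, fun T hT => ?_⟩
  have e : ∀ P : (Fin k → ℂ) → Prop, {x : Fin k → ℂ | (∀ j, SInt m T (x j)) ∧ P x} =
      {x : Fin k → ℂ | (∀ j, SInt m T (x j) ∧ Dm (x j)) ∧ P x} := by
    intro P
    ext x
    exact ⟨fun hx => ⟨fun j => ⟨hx.1 j, hD _⟩, hx.2⟩, fun hx => ⟨fun j => (hx.1 j).1, hx.2⟩⟩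
  obtain ⟨⟨H₀, h1⟩, h2⟩ := h T hT
  refine ⟨⟨H₀, fun H₁ hH₁ ζ => ?_⟩, fun ζ => ?_⟩
  · rw [e]
    exact h1 H₁ hH₁ ζ
  · rw [e]
    exact h2 ζ

end Pool.Agent.Q246.NR2
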