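import Pool.Agent.Q246.NR.Rel

/-!
# Transfer of near relations along polynomial maps
-/

set_option autoImplicit false

namespace Pool.Agent.Q246.NR2

open Pool.Agent.Q246.NR

/-- the exponent of a point of the box -/
noncomputable def tB {σ : Type} [Finite σ] {D : ℕ} (e : σ → Fin (D + 1)) : σ →₀ ℕ :=
  Finsupp.equivFunOnFinite.symm fun i => (e i : ℕ)

lemma tB_apply {σ : Type} [Finite σ] {D : ℕ} (e : σ → Fin (D + 1)) (i : σ) : tB e i = (e i : ℕ) := rfl

lemma tB_inj {σ : Type} [Finite σ] {D : ℕ} {e e' : σ → Fin (D + 1)} (h : tB e = tB e') : e = e' := by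
  funext i
  have := DFunLike.congr_fun h i
  exact Fin.ext this

lemma tB_surj {σ : Type} [Fintype σ] {D : ℕ} {S : Type} [CommSemiring S] (P : MvPolynomial σ S) (hP : P.totalDegree ≤ D)
    (d : σ →₀ ℕ) (hd : d ∈ P.support) : ∃ e : σ → Fin (D + 1), tB e = d := by
  have h1 : (d.sum fun _ k => k) ≤ D := (MvPolynomial.le_totalDegree hd).trans hP
  have h2 : ∑ i, d i ≤ D := by
    rwa [Finsupp.sum_fintype _ _ (fun _ => rfl)] at h1
  have hi : ∀ i, d i < D + 1 := fun i => by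
    have := Finset.single_le_sum (f := fun i => d i) (fun _ _ => Nat.zero_le _) (Finset.mem_univ i)
    omega
  refine ⟨fun i => ⟨d i, hi i⟩, ?_⟩
  ext s
  rfl

lemma eval_tB {σ : Type} [Fintype σ] [DecidableEq σ] {D : ℕ} {S S' : Type} [CommSemiring S] [CommSemiring S']
    (φ : S →+* S') (P : MvPolynomial σ S) (hP : P.totalDegree ≤ D) (x : σ → S') :
    MvPolynomial.eval₂ φ x P = ∑ e : σ → Fin (D + 1), φ (P.coeff (tB e)) * ∏ s, x s ^ (e s : ℕ) := by
  classical
  rw [MvPolynomial.eval₂_eq']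
  have h1 : ∑ d ∈ P.support, φ (P.coeff d) * ∏ i, x i ^ d i =
      ∑ d ∈ Finset.univ.image (tB (σ := σ) (D := D)), φ (P.coeff d) * ∏ i, x i ^ d i := by
    refine Finset.sum_subset ?_ ?_
    · intro d hd
      obtain ⟨e, he⟩ := tB_surj P hP d hd
      exact Finset.mem_image.2 ⟨e, Finset.mem_univ _, he⟩
    · intro d _ hd
      rw [MvPolynomial.notMem_support_iff.1 hd]
      simp
  rw [h1, Finset.sum_image (fun a _ b _ h => tB_inj h)]
  rfl

variable {κ κ' υ : Type} [Fintype κ] [Fintype κ'] [Fintype υ] [DecidableEq κ] [DecidableEq κ'] [DecidableEq υ]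

/-- the two groups of variables -/
lemma eval_two {D : ℕ} {S' : Type} [CommRing S'] [Algebra ℤ S'] (P : MvPolynomial (κ ⊕ υ) ℤ) (hP : P.totalDegree ≤ D) (y : κ → S')
    (u : υ → S') : MvPolynomial.aeval (Sum.elim y u) P = ∑ e : κ → Fin (D + 1), ∑ w : υ → Fin (D + 1),
      ((P.coeff (tB (Sum.elim e w)) : ℤ) : S') * ((∏ k, y k ^ (e k : ℕ)) * ∏ j, u j ^ (w j : ℕ)) := by
  rw [MvPolynomial.aeval_def, eval_tB _ P hP, ← (Equiv.sumArrowEquivProdArrow κ υ (Fin (D + 1))).symm.sum_comp,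
    Fintype.sum_prod_type]
  refine Finset.sum_congr rfl fun e _ => Finset.sum_congr rfl fun w _ => ?_
  rw [Fintype.prod_sum_type]
  simp only [eq_intCast]
  rfl

/-- near relations between the values of polynomials are near relations between the arguments -/
theorem transfer (d D₀ : ℕ) (F : κ' → MvPolynomial (κ ⊕ υ) ℤ) (hF : ∀ k', (F k').totalDegree ≤ D₀) (u : υ → ℂ)
    (hind : AlgebraicIndependent ℂ (fun k' => MvPolynomial.aeval (Sum.elim MvPolynomial.X (fun j => MvPolynomial.C (u j)))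
      (F k') : κ' → MvPolynomial κ ℂ)) :
    ∃ Λ : ℝ, 1 ≤ Λ ∧ ∀ (J : Type) [Fintype J] (ξ : J → ℂ) (y : κ → ℂ) (H δ : ℝ), 0 ≤ H → 0 ≤ δ →
      RelA ξ (fun l : κ' → Fin (d + 1) => ∏ k', (MvPolynomial.aeval (Sum.elim y u) (F k')) ^ (l k' : ℕ)) H δ →
      RelA (fun p : J × (υ → Fin (Fintype.card κ' * (d * D₀) + 1)) => ξ p.1 * ∏ j, u j ^ (p.2 j : ℕ))
        (fun e : κ → Fin (Fintype.card κ' * (d * D₀) + 1) => ∏ k, y k ^ (e k : ℕ)) (Λ * H) (δ * Λ) := by
  set D : ℕ := Fintype.card κ' * (d * D₀) with hD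
  set G : (κ' → Fin (d + 1)) → MvPolynomial (κ ⊕ υ) ℤ := fun l => ∏ k', F k' ^ (l k' : ℕ) with hG
  have hGd : ∀ l, (G l).totalDegree ≤ D := by
    intro l
    refine (MvPolynomial.totalDegree_finset_prod _ _).trans ?_
    calc ∑ k', (F k' ^ (l k' : ℕ)).totalDegree ≤ ∑ _k' : κ', d * D₀ := by
          refine Finset.sum_le_sum fun k' _ => (MvPolynomial.totalDegree_pow _ _).trans ?_
          exact Nat.mul_le_mul (by have := (l k').2; omega) (hF k')
      _ = D := by rw [Finset.sum_const, Finset.card_univ, smul_eq_mul]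
  set γ : (κ' → Fin (d + 1)) → (κ → Fin (D + 1)) → (υ → Fin (D + 1)) → ℤ := fun l e w =>
    (G l).coeff (tB (Sum.elim e w)) with hγ
  set Γ : (κ' → Fin (d + 1)) → (κ → Fin (D + 1)) → ℂ := fun l e =>
    ∑ w : υ → Fin (D + 1), (γ l e w : ℂ) * ∏ j, u j ^ (w j : ℕ) with hΓ
  -- the linear map
  let L : ((κ' → Fin (d + 1)) → ℂ) →ₗ[ℂ] ((κ → Fin (D + 1)) → ℂ) :=
    { toFun := fun a e => ∑ l, a l * Γ l e
      map_add' := fun a b => by
        funext e
        simp only [Pi.add_apply, add_mul, Finset.sum_add_distrib]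
      map_smul' := fun r a => by
        funext e
        simp only [Pi.smul_apply, smul_eq_mul, RingHom.id_apply, Finset.mul_sum, mul_assoc] }
  have hLa : ∀ a e, L a e = ∑ l, a l * Γ l e := fun _ _ => rfl
  have hval : ∀ (y : κ → ℂ) (l : κ' → Fin (d + 1)), ∏ k', (MvPolynomial.aeval (Sum.elim y u) (F k')) ^ (l k' : ℕ) =
      ∑ e : κ → Fin (D + 1), Γ l e * ∏ k, y k ^ (e k : ℕ) := by
    intro y l
    have h1 : ∏ k', (MvPolynomial.aeval (Sum.elim y u) (F k')) ^ (l k' : ℕ) = MvPolynomial.aeval (Sum.elim y u) (G l) := by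
      rw [hG, map_prod]
      simp only [map_pow]
    rw [h1, eval_two _ (hGd l)]
    refine Finset.sum_congr rfl fun e _ => ?_
    rw [hΓ, Finset.sum_mul]
    refine Finset.sum_congr rfl fun w _ => ?_
    rw [hγ]
    ring
  have hinj : Function.Injective L := by
    rw [injective_iff_map_eq_zero]
    intro a ha
    set p : MvPolynomial κ' ℂ := ∑ l : κ' → Fin (d + 1), MvPolynomial.monomial (tB l) (a l) with hp
    have hp0 : MvPolynomial.aeval (fun k' => MvPolynomial.aeval (Sum.elim MvPolynomial.X (fun j => MvPolynomial.C (u j)))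
        (F k') : κ' → MvPolynomial κ ℂ) p = 0 := by
      rw [hp, map_sum]
      have h1 : ∀ l : κ' → Fin (d + 1), MvPolynomial.aeval (fun k' => MvPolynomial.aeval (Sum.elim MvPolynomial.X
          (fun j => MvPolynomial.C (u j))) (F k') : κ' → MvPolynomial κ ℂ) (MvPolynomial.monomial (tB l) (a l)) =
          ∑ e : κ → Fin (D + 1), MvPolynomial.C (a l * Γ l e) * ∏ k, MvPolynomial.X k ^ (e k : ℕ) := by
        intro l
        rw [MvPolynomial.aeval_monomial, Finsupp.prod_fintype _ _ (fun _ => pow_zero _)]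
        have h2 : ∏ k', (MvPolynomial.aeval (Sum.elim MvPolynomial.X (fun j => MvPolynomial.C (u j))) (F k') :
            MvPolynomial κ ℂ) ^ (tB l k') = MvPolynomial.aeval (Sum.elim MvPolynomial.X (fun j => MvPolynomial.C (u j))) (G l) := by
          rw [hG, map_prod]
          refine Finset.prod_congr rfl fun k' _ => ?_
          rw [map_pow]
          rfl
        rw [h2, eval_two _ (hGd l), Finset.mul_sum]
        refine Finset.sum_congr rfl fun e _ => ?_
        have h3 : (MvPolynomial.C (a l * Γ l e) : MvPolynomial κ ℂ) = MvPolynomial.C (a l) * ∑ w : υ → Fin (D + 1),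
            ((γ l e w : ℤ) : MvPolynomial κ ℂ) * ∏ j, (MvPolynomial.C (u j)) ^ (w j : ℕ) := by
          rw [hΓ, map_mul, map_sum]
          congr 1
          refine Finset.sum_congr rfl fun w _ => ?_
          rw [map_mul, map_prod, map_intCast]
          simp only [map_pow]
        rw [h3, mul_assoc, Finset.sum_mul]
        have h4 : algebraMap ℂ (MvPolynomial κ ℂ) (a l) = MvPolynomial.C (a l) := rfl
        rw [h4]
        congr 1
        refine Finset.sum_congr rfl fun w _ => ?_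
        rw [hγ]
        ring
      simp only [h1]
      rw [Finset.sum_comm]
      refine Finset.sum_eq_zero fun e _ => ?_
      rw [← Finset.sum_mul, ← map_sum, ← hLa, ha, Pi.zero_apply, map_zero, zero_mul]
    have hp1 : p = 0 := by
      have h1 := (algebraicIndependent_iff.1 hind) p hp0
      exact h1
    funext l
    have h2 := congrArg (MvPolynomial.coeff (tB l)) hp1
    rw [hp, MvPolynomial.coeff_sum, Finset.sum_eq_single l] at h2
    · simpa using h2
    · intro b _ hb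
      rw [MvPolynomial.coeff_monomial, if_neg]
      exact fun h => hb (tB_inj h)
    · intro h
      exact absurd (Finset.mem_univ _) h
  obtain ⟨K, hK0, hK⟩ := LinearMap.exists_antilipschitzWith L (LinearMap.ker_eq_bot.2 hinj)
  have hKb : ∀ a, ‖a‖ ≤ K * ‖L a‖ := fun a => ZeroHomClass.bound_of_antilipschitz L hK a
  set Λ₁ : ℝ := 1 + ∑ l, ∑ e, ∑ w, |(γ l e w : ℝ)| with hΛ₁
  have hΛ₁1 : 1 ≤ Λ₁ := by
    have : 0 ≤ ∑ l, ∑ e, ∑ w, |(γ l e w : ℝ)| :=
      Finset.sum_nonneg fun _ _ => Finset.sum_nonneg fun _ _ => Finset.sum_nonneg fun _ _ => abs_nonneg _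
    linarith
  refine ⟨max Λ₁ K, hΛ₁1.trans (le_max_left _ _), fun J _ ξ y H δ hH hδ hrel => ?_⟩
  obtain ⟨c, hc, l₀, hl₀, hs⟩ := hrel
  set a : (κ' → Fin (d + 1)) → ℂ := fun l => ∑ s, ξ s * (c l s : ℂ) with ha
  set c' : (κ → Fin (D + 1)) → J × (υ → Fin (D + 1)) → ℤ := fun e p => ∑ l, c l p.1 * γ l e p.2 with hc'
  have hcoef : ∀ e, ∑ p : J × (υ → Fin (D + 1)), (ξ p.1 * ∏ j, u j ^ (p.2 j : ℕ)) * (c' e p : ℂ) = L a e := by
    intro e
    rw [hLa, Fintype.sum_prod_type]
    simp only [hc', hΓ, ha]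
    push_cast
    simp only [Finset.mul_sum, Finset.sum_mul]
    have h1 : ∀ x : J, ∑ w : υ → Fin (D + 1), ∑ l : κ' → Fin (d + 1),
        ξ x * (∏ j, u j ^ (w j : ℕ)) * ((c l x : ℂ) * (γ l e w : ℂ)) = ∑ l : κ' → Fin (d + 1), ∑ w : υ → Fin (D + 1),
        ξ x * (c l x : ℂ) * ((γ l e w : ℂ) * ∏ j, u j ^ (w j : ℕ)) := by
      intro x
      rw [Finset.sum_comm]
      refine Finset.sum_congr rfl fun l _ => Finset.sum_congr rfl fun w _ => ?_
      ring
    simp only [h1]
    rw [Finset.sum_comm]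
    refine Finset.sum_congr rfl fun l _ => ?_
    rw [Finset.sum_comm]
  have hLne : Nonempty (κ → Fin (D + 1)) := inferInstance
  obtain ⟨e₀, he₀⟩ : ∃ e₀, ‖L a‖ ≤ ‖L a e₀‖ := by
    obtain ⟨e₀, -, h⟩ := Finset.exists_max_image (Finset.univ : Finset (κ → Fin (D + 1))) (fun e => ‖L a e‖)
      Finset.univ_nonempty
    exact ⟨e₀, (pi_norm_le_iff_of_nonneg (norm_nonneg _)).2 fun e => h e (Finset.mem_univ e)⟩
  have hbig : ‖a l₀‖ ≤ max Λ₁ K * ‖L a e₀‖ := by
    calc ‖a l₀‖ ≤ ‖a‖ := norm_le_pi_norm a l₀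
      _ ≤ K * ‖L a‖ := hKb a
      _ ≤ K * ‖L a e₀‖ := mul_le_mul_of_nonneg_left he₀ K.2
      _ ≤ _ := mul_le_mul_of_nonneg_right (le_max_right _ _) (norm_nonneg _)
  have ha0 : 0 < ‖a l₀‖ := norm_pos_iff.2 hl₀
  refine ⟨c', ?_, e₀, ?_, ?_⟩
  · intro e p
    simp only [hc']
    push_cast
    calc |∑ l, (c l p.1 : ℝ) * (γ l e p.2 : ℝ)| ≤ ∑ l, |(c l p.1 : ℝ) * (γ l e p.2 : ℝ)| :=
          Finset.abs_sum_le_sum_abs _ _
      _ ≤ ∑ l, H * |(γ l e p.2 : ℝ)| := by
          refine Finset.sum_le_sum fun l _ => ?_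
          rw [abs_mul]
          exact mul_le_mul_of_nonneg_right (hc _ _) (abs_nonneg _)
      _ = H * ∑ l, |(γ l e p.2 : ℝ)| := by rw [Finset.mul_sum]
      _ ≤ H * Λ₁ := by
          refine mul_le_mul_of_nonneg_left ?_ hH
          have h1 : ∑ l, |(γ l e p.2 : ℝ)| ≤ ∑ l, ∑ e, ∑ w, |(γ l e w : ℝ)| := by
            refine Finset.sum_le_sum fun l _ => ?_
            refine le_trans ?_ (Finset.single_le_sum (f := fun e => ∑ w, |(γ l e w : ℝ)|)
              (fun _ _ => Finset.sum_nonneg fun _ _ => abs_nonneg _) (Finset.mem_univ e))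
            exact Finset.single_le_sum (f := fun w => |(γ l e w : ℝ)|) (fun _ _ => abs_nonneg _) (Finset.mem_univ p.2)
          linarith
      _ ≤ max Λ₁ K * H := by
          rw [mul_comm]
          exact mul_le_mul_of_nonneg_right (le_max_left _ _) hH
  · rw [hcoef]
    intro h0
    rw [h0, norm_zero, mul_zero] at hbig
    linarith
  · simp only [hcoef]
    have h1 : ∑ e : κ → Fin (D + 1), L a e * ∏ k, y k ^ (e k : ℕ) = ∑ l : κ' → Fin (d + 1),
        (∑ s, ξ s * (c l s : ℂ)) * ∏ k', (MvPolynomial.aeval (Sum.elim y u) (F k')) ^ (l k' : ℕ) := by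
      simp only [hLa, hval, Finset.sum_mul, Finset.mul_sum]
      rw [Finset.sum_comm]
      refine Finset.sum_congr rfl fun l _ => Finset.sum_congr rfl fun e _ => ?_
      rw [ha]
      simp only [Finset.sum_mul]
      refine Finset.sum_congr rfl fun s _ => ?_
      ring
    rw [h1]
    refine hs.trans ?_
    rw [mul_assoc]
    exact mul_le_mul_of_nonneg_left hbig hδ

end Pool.Agent.Q246.NR2
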