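import Pool.Agent.Q246.NR2.Fin
import Pool.Agent.Y916.Sl.Many

/-!
# The measures as proportions
-/

set_option autoImplicit false

open Module

namespace Pool.Agent.Q246.NR2

open Pool.Agent.Q246.NR Pool.Agent.Y916.Al Pool.Agent.Y916.Sl

/-- **Many heights, one exceptional set**, for almost all tuples of algebraic integers -/
theorem masterNF {κ : Type} [Fintype κ] [DecidableEq κ] (m : ℕ) (hm : 1 ≤ m) (y : ℂ → κ → ℂ) (Dm : ℂ → Prop) (G : ℤ)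
    (hG : G ≠ 0) (hwin : WinN y Dm G m) (k g d : ℕ) :
    ∃ (B : ℕ) (C c : ℝ), 0 < c ∧ ∀ T : ℕ, 1 ≤ T →
    (∃ H₀ : ℝ, ∀ H₁ : ℝ, H₀ ≤ H₁ → ∀ ζ : Fin g → ℂ,
      (({x : Fin k → ℂ | (∀ j, SInt m T (x j) ∧ Dm (x j)) ∧ ¬ ∀ H : ℝ, H₁ ≤ H → H ≤ H₁ ^ Real.exp ((T : ℝ) ^ c) →
        Good d B ζ (fun p : Fin k × κ => y (x p.1) p.2) H}.ncard : ℕ) : ℝ) ≤
          C * (T : ℝ) ^ (-c) * (({ξ : ℂ | SInt m T ξ}.ncard : ℕ) : ℝ) ^ k) ∧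
    ∀ ζ : Fin g → ℂ, (({x : Fin k → ℂ | (∀ j, SInt m T (x j) ∧ Dm (x j)) ∧ ¬ ∀ N₀ : ℕ, ∃ N, N₀ ≤ N ∧
      (({j : ℕ | j < N ∧ ¬ ∀ H : ℝ, 2 ^ (2 ^ j) ≤ H → H ≤ 2 ^ (2 ^ (j + 1)) →
        Good d B ζ (fun p : Fin k × κ => y (x p.1) p.2) H}.ncard : ℕ) : ℝ) ≤
          (T : ℝ) ^ (-c) * N}.ncard : ℕ) : ℝ) ≤ C * (T : ℝ) ^ (-c) * (({ξ : ℂ | SInt m T ξ}.ncard : ℕ) : ℝ) ^ k := by
  classical
  obtain ⟨c₁, hc₁, hmany⟩ := many m hm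
  have hOne := oneN_of hG hwin
  set C₀ : ℝ := (3 * 2 ^ m) ^ m * m with hC₀
  have hC₀0 : 0 ≤ C₀ := by positivity
  obtain ⟨B, C, c, hc, h⟩ := master (Mm m : ℝ) C₀ hC₀0 k (fun _ T => (NF m T).filter fun ξ => Dm ξ) (fun _ => y)
    (fun _ => by convert hOne) (fun _ T hT => by
      refine le_trans ?_ ((card_NF m T hT).trans (le_of_eq ?_))
      · exact_mod_cast Finset.card_filter_le _ _
      · rw [Real.rpow_natCast]) g d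
  refine ⟨B, max C 0 / c₁ ^ k, c, hc, fun T hT => ?_⟩
  have hTR : (1 : ℝ) ≤ T := by exact_mod_cast hT
  have hTp : (0 : ℝ) < T := by linarith
  obtain ⟨⟨H₀, h1⟩, h2⟩ := h T hT
  -- comparison
  have key : ∀ p : (Fin k → ℂ) → Prop,
      ((((Fintype.piFinset fun _ : Fin k => (NF m T).filter fun ξ => Dm ξ).filter fun x => ¬ p x).card : ℕ) : ℝ) ≤
        C * (T : ℝ) ^ ((k : ℝ) * (Mm m : ℝ) - c) →
      (({x : Fin k → ℂ | (∀ j, SInt m T (x j) ∧ Dm (x j)) ∧ ¬ p x}.ncard : ℕ) : ℝ) ≤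
        max C 0 / c₁ ^ k * (T : ℝ) ^ (-c) * (({ξ : ℂ | SInt m T ξ}.ncard : ℕ) : ℝ) ^ k := by
    intro p hp
    have hsub : {x : Fin k → ℂ | (∀ j, SInt m T (x j) ∧ Dm (x j)) ∧ ¬ p x} ⊆
        (((Fintype.piFinset fun _ : Fin k => (NF m T).filter fun ξ => Dm ξ).filter fun x => ¬ p x :
          Finset (Fin k → ℂ)) : Set (Fin k → ℂ)) := by
      rintro x ⟨hx, hpx⟩
      rw [Finset.mem_coe, Finset.mem_filter, Fintype.mem_piFinset]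
      exact ⟨fun j => Finset.mem_filter.2 ⟨mem_NF.2 (hx j).1.aint, (hx j).2⟩, hpx⟩
    have h3 := Set.ncard_le_ncard hsub (Finset.finite_toSet _)
    rw [Set.ncard_coe_finset] at h3
    have h4 : (({x : Fin k → ℂ | (∀ j, SInt m T (x j) ∧ Dm (x j)) ∧ ¬ p x}.ncard : ℕ) : ℝ) ≤
        C * (T : ℝ) ^ ((k : ℝ) * (Mm m : ℝ) - c) := le_trans (by exact_mod_cast h3) hp
    refine h4.trans ?_
    have h5 := prop_bound (c := c) (C := max C 0) hc₁ (le_max_right _ _) (k := k) (M := Mm m) hT (hmany T hT)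
    refine le_trans ?_ h5
    have h6 : ((k * Mm m : ℕ) : ℝ) - c = (k : ℝ) * (Mm m : ℝ) - c := by push_cast; ring
    rw [h6]
    exact mul_le_mul_of_nonneg_right (le_max_left _ _) (Real.rpow_nonneg hTp.le _)
  have hsetj : ∀ (N : ℕ) (p : ℕ → Prop), {j : ℕ | j < N ∧ p j}.ncard = ((Finset.range N).filter p).card := by
    intro N p
    have : {j : ℕ | j < N ∧ p j} = (((Finset.range N).filter p : Finset ℕ) : Set ℕ) := by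
      ext j
      rw [Finset.mem_coe, Finset.mem_filter, Finset.mem_range]
      rfl
    rw [this, Set.ncard_coe_finset]
  refine ⟨⟨H₀, fun H₁ hH₁ ζ => ?_⟩, fun ζ => ?_⟩
  · refine key _ ?_
    convert h1 H₁ hH₁ ζ
  · simp only [hsetj]
    refine key _ ?_
    convert h2 ζ

/-- the same for a weaker property of the points -/
theorem masterNF' {κ : Type} [Fintype κ] [DecidableEq κ] (m : ℕ) (hm : 1 ≤ m) (y : ℂ → κ → ℂ) (Dm : ℂ → Prop) (G : ℤ)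
    (hG : G ≠ 0) (hwin : WinN y Dm G m) (k g d : ℕ) (Gd : ℕ → (Fin g → ℂ) → (Fin k → ℂ) → ℝ → Prop)
    (hGd : ∀ B ζ (x : Fin k → ℂ) H, (∀ j, Dm (x j)) → Good d B ζ (fun p : Fin k × κ => y (x p.1) p.2) H → Gd B ζ x H) :
    ∃ (B : ℕ) (C c : ℝ), 0 < c ∧ ∀ T : ℕ, 1 ≤ T →
    (∃ H₀ : ℝ, ∀ H₁ : ℝ, H₀ ≤ H₁ → ∀ ζ : Fin g → ℂ,
      (({x : Fin k → ℂ | (∀ j, SInt m T (x j) ∧ Dm (x j)) ∧ ¬ ∀ H : ℝ, H₁ ≤ H → H ≤ H₁ ^ Real.exp ((T : ℝ) ^ c) →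
        Gd B ζ x H}.ncard : ℕ) : ℝ) ≤ C * (T : ℝ) ^ (-c) * (({ξ : ℂ | SInt m T ξ}.ncard : ℕ) : ℝ) ^ k) ∧
    ∀ ζ : Fin g → ℂ, (({x : Fin k → ℂ | (∀ j, SInt m T (x j) ∧ Dm (x j)) ∧ ¬ ∀ N₀ : ℕ, ∃ N, N₀ ≤ N ∧
      (({j : ℕ | j < N ∧ ¬ ∀ H : ℝ, 2 ^ (2 ^ j) ≤ H → H ≤ 2 ^ (2 ^ (j + 1)) → Gd B ζ x H}.ncard : ℕ) : ℝ) ≤
          (T : ℝ) ^ (-c) * N}.ncard : ℕ) : ℝ) ≤ C * (T : ℝ) ^ (-c) * (({ξ : ℂ | SInt m T ξ}.ncard : ℕ) : ℝ) ^ k := by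
  classical
  obtain ⟨B, C, c, hc, h⟩ := masterNF m hm y Dm G hG hwin k g d
  refine ⟨B, C, c, hc, fun T hT => ?_⟩
  obtain ⟨⟨H₀, h1⟩, h2⟩ := h T hT
  have hfin : ∀ p : (Fin k → ℂ) → Prop, {x : Fin k → ℂ | (∀ j, SInt m T (x j) ∧ Dm (x j)) ∧ p x}.Finite := by
    intro p
    have h3 : {x : Fin k → ℂ | ∀ j, x j ∈ {ξ : ℂ | SInt m T ξ}}.Finite := Set.Finite.pi' fun _ => sint_fin m T
    refine h3.subset ?_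
    rintro x ⟨hx, -⟩ j
    exact (hx j).1
  have hmono : ∀ p q : (Fin k → ℂ) → Prop, (∀ x, (∀ j, Dm (x j)) → q x → p x) →
      (({x : Fin k → ℂ | (∀ j, SInt m T (x j) ∧ Dm (x j)) ∧ ¬ p x}.ncard : ℕ) : ℝ) ≤
        (({x : Fin k → ℂ | (∀ j, SInt m T (x j) ∧ Dm (x j)) ∧ ¬ q x}.ncard : ℕ) : ℝ) := by
    intro p q hpq
    have hsub : {x : Fin k → ℂ | (∀ j, SInt m T (x j) ∧ Dm (x j)) ∧ ¬ p x} ⊆
        {x : Fin k → ℂ | (∀ j, SInt m T (x j) ∧ Dm (x j)) ∧ ¬ q x} := by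
      rintro x ⟨hx, hb⟩
      exact ⟨hx, fun hq => hb (hpq x (fun j => (hx j).2) hq)⟩
    exact_mod_cast Set.ncard_le_ncard hsub (hfin _)
  refine ⟨⟨H₀, fun H₁ hH₁ ζ => le_trans (hmono _ _ ?_) (h1 H₁ hH₁ ζ)⟩, fun ζ => le_trans (hmono _ _ ?_) (h2 ζ)⟩
  · intro x hx hq H h3 h4
    exact hGd B ζ x H hx (hq H h3 h4)
  · intro x hx hq N₀
    obtain ⟨N, hN, hN2⟩ := hq N₀
    refine ⟨N, hN, le_trans ?_ hN2⟩
    have hsub2 : {j : ℕ | j < N ∧ ¬ ∀ H : ℝ, 2 ^ (2 ^ j) ≤ H → H ≤ 2 ^ (2 ^ (j + 1)) → Gd B ζ x H} ⊆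
        {j : ℕ | j < N ∧ ¬ ∀ H : ℝ, 2 ^ (2 ^ j) ≤ H → H ≤ 2 ^ (2 ^ (j + 1)) →
          Good d B ζ (fun p : Fin k × κ => y (x p.1) p.2) H} := by
      rintro j ⟨hj, hb2⟩
      exact ⟨hj, fun hcon2 => hb2 fun H h3 h4 => hGd B ζ x H hx (hcon2 H h3 h4)⟩
    exact_mod_cast Set.ncard_le_ncard hsub2 ((Set.finite_Iio N).subset fun j hj => hj.1)

end Pool.Agent.Q246.NR2
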