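import Pool.Agent.Q246.NR2.Trans
import Pool.Agent.Y916.Al.GK

/-!
# Windows: few near relations
-/

set_option autoImplicit false

open Module

namespace Pool.Agent.Q246.NR2

open Pool.Agent.Q246.NR Pool.Agent.Y916.Al

/-- the input: measures of algebraic independence for the numbers `val ξ g k`, for several small shifts `g` of a
point `ξ` of a number field -/
def InpN {κ : Type} (val : ℂ → ℕ → κ → ℂ) : Prop :=
  ∀ N D d A : ℕ, ∃ E B : ℕ, ∀ (H : ℕ) (K : IntermediateField ℚ ℂ) (ξ : K) (X : ℝ), FiniteDimensional ℚ K →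
    finrank ℚ K ≤ d → Pt K ξ X → ((H : ℝ) + 2) ^ E ≤ ‖(ξ : ℂ)‖ → X ≤ ‖(ξ : ℂ)‖ ^ A →
    ∀ g : Fin N → ℕ, Function.Injective g → (∀ l, 1 ≤ g l ∧ g l ≤ H) →
    Low (fun i : Fin N × κ => val ξ (g i.1) i.2) D B

/-- the link: the numbers `y` at the point `ξ + G g` are polynomials in the numbers `val ξ g` and in constants `u` -/
def LinkN {κ κ' : Type} (val : ℂ → ℕ → κ → ℂ) (y : ℂ → κ' → ℂ) (Dm : ℂ → Prop) (G : ℤ) (υ : Type) (m D₀ E : ℕ) :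
    Prop :=
  ∀ (K : IntermediateField ℚ ℂ) (ξ : K), FiniteDimensional ℚ K → finrank ℚ K ≤ m → ∃ u : υ → ℂ,
    ∀ g : ℕ, 1 ≤ g → ((g : ℝ) + 2) ^ E ≤ ‖(ξ : ℂ)‖ → Dm ((ξ : ℂ) + G * g) →
    ∃ F : κ' → MvPolynomial (κ ⊕ υ) ℤ, (∀ k', (F k').totalDegree ≤ D₀) ∧
      AlgebraicIndependent ℂ (fun k' => MvPolynomial.aeval (Sum.elim MvPolynomial.X (fun j => MvPolynomial.C (u j)))
        (F k') : κ' → MvPolynomial κ ℂ) ∧
      ∀ k', y ((ξ : ℂ) + G * g) k' = MvPolynomial.aeval (Sum.elim (val ξ g) u) (F k')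

/-- few points of a progression satisfy near relations -/
def WinN {κ' : Type} [Fintype κ'] [DecidableEq κ'] (y : ℂ → κ' → ℂ) (Dm : ℂ → Prop) (G : ℤ) (m : ℕ) : Prop :=
  ∀ d n A : ℕ, ∃ M E B : ℕ, ∀ (J : ℕ) (K : IntermediateField ℚ ℂ) (ξ : K) (X : ℝ), FiniteDimensional ℚ K →
    finrank ℚ K ≤ m → Pt K ξ X → ((J : ℝ) + 2) ^ E ≤ ‖(ξ : ℂ)‖ → X ≤ ‖(ξ : ℂ)‖ ^ A → ∃ H₀ : ℝ, ∀ H : ℝ, H₀ ≤ H →
    ∀ (h : Type) [Fintype h], Fintype.card h = n → ∀ ζ : h → ℂ, ∀ S : Finset ℕ,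
      (∀ g ∈ S, 1 ≤ g ∧ g ≤ J ∧ Dm ((ξ : ℂ) + G * g) ∧
        RelA ζ (fun l : κ' → Fin (d + 1) => ∏ k', y ((ξ : ℂ) + G * g) k' ^ (l k' : ℕ)) H (H ^ B)⁻¹) → S.card ≤ M

theorem win {κ κ' υ : Type} [Fintype κ] [Fintype κ'] [Fintype υ] [DecidableEq κ] [DecidableEq κ'] [DecidableEq υ]
    {val : ℂ → ℕ → κ → ℂ} (hval : InpN val) {y : ℂ → κ' → ℂ} {Dm : ℂ → Prop} {G : ℤ} {m D₀ E₁ : ℕ}
    (hlink : LinkN val y Dm G υ m D₀ E₁) : WinN y Dm G m := by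
  classical
  intro d n A
  set D : ℕ := Fintype.card κ' * (d * D₀) with hD
  set n' : ℕ := n * (D + 1) ^ Fintype.card υ with hn'
  set N : ℕ := n' + 1 with hN
  choose Ef Bf hlow using fun D : ℕ => hval N D m A
  obtain ⟨Dm', B', helim⟩ := elim_rel Bf κ D n'
  refine ⟨n', E₁ + ∑ D ∈ Finset.range (Dm' + 1), Ef D, 2 * B' + 1, fun J K ξ X hK hm hPt hξ hX => ?_⟩
  have hJ1 : (1 : ℝ) ≤ (J : ℝ) + 2 := by linarith [show (0 : ℝ) ≤ J by positivity]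
  have hEf : ∀ D ≤ Dm', ((J : ℝ) + 2) ^ Ef D ≤ ‖(ξ : ℂ)‖ := by
    intro D hD
    refine (pow_le_pow_right₀ hJ1 ?_).trans hξ
    have h1 : Ef D ≤ ∑ D ∈ Finset.range (Dm' + 1), Ef D :=
      Finset.single_le_sum (f := fun D => Ef D) (fun _ _ => Nat.zero_le _) (Finset.mem_range.2 (Nat.lt_succ_of_le hD))
    omega
  have hE₁ : ((J : ℝ) + 2) ^ E₁ ≤ ‖(ξ : ℂ)‖ := (pow_le_pow_right₀ hJ1 (by omega)).trans hξ
  obtain ⟨u, hu⟩ := hlink K ξ hK hm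
  -- the threshold for one configuration
  have hone : ∀ g : Fin N → Fin (J + 1), (Function.Injective g ∧ ∀ i, 1 ≤ (g i : ℕ)) → ∃ H₀ : ℝ, ∀ H : ℝ, H₀ ≤ H →
      ∀ (h : Type) [Fintype h], Fintype.card h = n' → ∀ ζ : h → ℂ,
      ¬ ∀ i : Fin N, RelA ζ (fun l : κ → Fin (D + 1) => ∏ k, val ξ (g i) k ^ (l k : ℕ)) H (H ^ B')⁻¹ := by
    rintro g ⟨hg, hg1⟩
    obtain ⟨H₀, hH₀⟩ := helim (Fin N) (fun p : Fin N × κ => val ξ (g p.1) p.2)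
      (fun D hD => hlow D J K ξ X hK hm hPt (hEf D hD) hX (fun i => (g i : ℕ)) (fun i j hij => hg (Fin.ext hij))
        (fun i => ⟨hg1 i, by have := (g i).2; omega⟩))
    refine ⟨H₀, fun H hH h _ hh ζ hcon => ?_⟩
    refine hH₀ H hH h hh ζ Finset.univ ?_ fun i _ => hcon i
    rw [Finset.card_univ, Fintype.card_fin]
    omega
  choose! Hg hHg using hone
  -- the constants of the transfer
  have htr : ∀ g : ℕ, (1 ≤ g ∧ g ≤ J ∧ Dm ((ξ : ℂ) + G * g)) → ∃ Λ : ℝ, 1 ≤ Λ ∧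
      ∀ (h : Type) [Fintype h] (ζ : h → ℂ) (H δ : ℝ), 0 ≤ H → 0 ≤ δ →
      RelA ζ (fun l : κ' → Fin (d + 1) => ∏ k', y ((ξ : ℂ) + G * g) k' ^ (l k' : ℕ)) H δ →
      RelA (fun p : h × (υ → Fin (D + 1)) => ζ p.1 * ∏ j, u j ^ (p.2 j : ℕ))
        (fun e : κ → Fin (D + 1) => ∏ k, val ξ g k ^ (e k : ℕ)) (Λ * H) (δ * Λ) := by
    rintro g ⟨h1, h2, h3⟩
    obtain ⟨F, hF1, hF2, hF3⟩ := hu g h1 (by
      refine le_trans (pow_le_pow_left₀ (by positivity) ?_ _) hE₁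
      have : (g : ℝ) ≤ J := by exact_mod_cast h2
      linarith) h3
    obtain ⟨Λ, hΛ1, hΛ⟩ := transfer d D₀ F hF1 u hF2
    refine ⟨Λ, hΛ1, fun h _ ζ H δ hH hδ hrel => ?_⟩
    simp only [hF3] at hrel
    exact hΛ h ζ (val ξ g) H δ hH hδ hrel
  choose! Λ hΛ1 hΛ using htr
  set H₀ : ℝ := ∑ g : Fin N → Fin (J + 1), |Hg g| with hH₀
  set Λ₀ : ℝ := ∑ g ∈ Finset.range (J + 1), |Λ g| with hΛ₀
  refine ⟨max 1 (max Λ₀ H₀), fun H hH h _ hh ζ S hS => ?_⟩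
  have hH1 : 1 ≤ H := (le_max_left _ _).trans hH
  have hHΛ : Λ₀ ≤ H := (le_max_left _ _).trans ((le_max_right _ _).trans hH)
  have hHH : H₀ ≤ H := (le_max_right _ _).trans ((le_max_right _ _).trans hH)
  have hHp : 0 < H := by linarith
  by_contra hcard
  push Not at hcard
  obtain ⟨S', hS'S, hS'c⟩ := Finset.exists_subset_card_eq (show N ≤ S.card by omega)
  set e := S'.orderEmbOfFin hS'c with he
  have heS : ∀ i, (e i) ∈ S := fun i => hS'S (Finset.orderEmbOfFin_mem S' hS'c i)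
  set g : Fin N → Fin (J + 1) := fun i => ⟨e i, by have := (hS (e i) (heS i)).2.1; omega⟩ with hg
  have hginj : Function.Injective g := by
    intro i j hij
    have h1 : e i = e j := congrArg Fin.val hij
    exact e.injective h1
  have hHgH : Hg g ≤ H ^ 2 := by
    have h1 := Finset.single_le_sum (f := fun g : Fin N → Fin (J + 1) => |Hg g|) (fun _ _ => abs_nonneg _)
      (Finset.mem_univ g)
    have h2 : H ≤ H ^ 2 := by nlinarith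
    calc Hg g ≤ |Hg g| := le_abs_self _
      _ ≤ H₀ := h1
      _ ≤ H := hHH
      _ ≤ H ^ 2 := h2
  refine hHg g ⟨hginj, fun i => (hS (e i) (heS i)).1⟩ (H ^ 2) hHgH (h × (υ → Fin (D + 1))) (by
    rw [Fintype.card_prod, Fintype.card_fun, Fintype.card_fin, hh])
    (fun p => ζ p.1 * ∏ j, u j ^ (p.2 j : ℕ)) fun i => ?_
  have hgi : (g i : ℕ) = e i := rfl
  obtain ⟨h1, h2, h3, h4⟩ := hS (e i) (heS i)
  rw [hgi]
  have hΛi : Λ (e i) ≤ H := by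
    have h5 := Finset.single_le_sum (f := fun g : ℕ => |Λ g|) (fun _ _ => abs_nonneg _)
      (show e i ∈ Finset.range (J + 1) by rw [Finset.mem_range]; omega)
    exact (le_abs_self _).trans (h5.trans hHΛ)
  have h5 := hΛ (e i) ⟨h1, h2, h3⟩ h ζ H _ hHp.le (by positivity) h4
  refine h5.mono ?_ ?_
  · calc Λ (e i) * H ≤ H * H := mul_le_mul_of_nonneg_right hΛi hHp.le
      _ = H ^ 2 := by ring
  · rw [← pow_mul, pow_succ, mul_inv, mul_assoc]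
    have h6 : H⁻¹ * Λ (e i) ≤ 1 := by
      rw [inv_mul_le_iff₀ hHp, mul_one]
      exact hΛi
    calc (H ^ (2 * B'))⁻¹ * (H⁻¹ * Λ (e i)) ≤ (H ^ (2 * B'))⁻¹ * 1 := mul_le_mul_of_nonneg_left h6 (by positivity)
      _ = _ := mul_one _

end Pool.Agent.Q246.NR2
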