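import Pool.Agent.Q246.NR2.Win
import Pool.Agent.Y916.Sl.DegT

/-!
# Counting over the algebraic integers of bounded degree
-/

set_option autoImplicit false

open Module

namespace Pool.Agent.Q246.NR2

open Pool.Agent.Q246.NR Pool.Agent.Y916.Al Pool.Agent.Y916.Sl

open Classical in
/-- counting bad points (the proof is that of `Pool.Agent.Y916.Sl.deg_badA`) -/
theorem count_abs (m M E : ℕ) : ∃ c : ℝ, 0 < c ∧ ∃ C : ℝ, 0 ≤ C ∧ ∀ T : ℕ, 1 ≤ T → ∀ Bd : ℂ → Prop,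
    (∀ (H : ℕ) (ξ : ℂ), H ≤ T → AInt m ((2 * T : ℕ) : ℝ) ξ → ((H : ℝ) + 2) ^ E ≤ ‖ξ‖ → 2 * (T : ℝ) ≤ ‖ξ‖ ^ 4 →
      ∀ S : Finset ℕ, (∀ g ∈ S, g ≤ H ∧ Bd (ξ + g)) → S.card ≤ M) →
    (((NF m T).filter fun ξ => Bd ξ).card : ℝ) ≤ C * (T : ℝ) ^ ((Mm m : ℝ) - c) := by
  set E' := E + 1 with hE'
  have hE'0 : (0 : ℝ) < E' := by positivity
  set ε : ℝ := 1 / (4 * E') with hε
  have hε0 : 0 < ε := by positivity
  have hε1 : ε ≤ 1 / 4 := by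
    rw [hε]
    refine one_div_le_one_div_of_le (by norm_num) ?_
    have : (1 : ℝ) ≤ E' := by exact_mod_cast (by omega : 1 ≤ E')
    linarith
  set C₀ : ℝ := (3 * 2 ^ m) ^ m * m with hC₀
  have hC₀0 : 0 ≤ C₀ := by positivity
  set T₀ : ℕ := 3 ^ (4 * E') with hT₀
  have hT₀1 : (1 : ℝ) ≤ T₀ := by
    rw [hT₀]
    push_cast
    exact one_le_pow₀ (by norm_num)
  refine ⟨ε, hε0, M * (C₀ * 2 ^ Mm m) + 4 * C₀ + C₀ * (T₀ : ℝ) ^ ε, by positivity, fun T hT Bd hBd => ?_⟩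
  have hT1 : (1 : ℝ) ≤ T := by exact_mod_cast hT
  have hT0 : (0 : ℝ) < T := by linarith
  have hcardT := card_NF m T hT
  have hbase : 0 ≤ (T : ℝ) ^ ((Mm m : ℝ) - ε) := by positivity
  rcases lt_or_ge T T₀ with hTT | hTT
  · have h1 : (((NF m T).filter fun ξ => Bd ξ).card : ℝ) ≤ C₀ * (T : ℝ) ^ Mm m :=
      le_trans (by exact_mod_cast Finset.card_filter_le _ _) hcardT
    refine h1.trans ?_
    have h2 : (T : ℝ) ^ Mm m = (T : ℝ) ^ ε * (T : ℝ) ^ ((Mm m : ℝ) - ε) := by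
      rw [← Real.rpow_add hT0, ← Real.rpow_natCast]
      congr 1
      ring
    have h3 : (T : ℝ) ^ ε ≤ (T₀ : ℝ) ^ ε := Real.rpow_le_rpow hT0.le (by exact_mod_cast hTT.le) hε0.le
    rw [h2]
    calc C₀ * ((T : ℝ) ^ ε * (T : ℝ) ^ ((Mm m : ℝ) - ε)) ≤ C₀ * ((T₀ : ℝ) ^ ε * (T : ℝ) ^ ((Mm m : ℝ) - ε)) :=
          mul_le_mul_of_nonneg_left (mul_le_mul_of_nonneg_right h3 hbase) hC₀0
      _ = (C₀ * (T₀ : ℝ) ^ ε) * (T : ℝ) ^ ((Mm m : ℝ) - ε) := by ring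
      _ ≤ _ := mul_le_mul_of_nonneg_right (by
          have : 0 ≤ (M : ℝ) * (C₀ * 2 ^ Mm m) + 4 * C₀ := by positivity
          linarith) hbase
  -- the main case
  set s : ℝ := (T : ℝ) ^ (1 / 2 : ℝ) with hs
  have hs0 : 0 < s := by positivity
  have hs1 : 1 ≤ s := Real.one_le_rpow hT1 (by norm_num)
  have hss : s * s = T := by
    rw [hs, ← Real.rpow_add hT0]
    norm_num
  set H : ℕ := ⌊(T : ℝ) ^ ε⌋₊ with hH
  have hTε1 : 1 ≤ (T : ℝ) ^ ε := Real.one_le_rpow hT1 hε0.le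
  have hHT : (H : ℝ) ≤ (T : ℝ) ^ ε := Nat.floor_le (by positivity)
  have hH2 : ((H : ℝ) + 2) ^ E' ≤ s := by
    have h1 : (H : ℝ) + 2 ≤ 3 * (T : ℝ) ^ ε := by linarith
    have h2 : (3 : ℝ) ^ E' ≤ (T : ℝ) ^ (1 / 4 : ℝ) := by
      have h3 : ((3 : ℝ) ^ E') = ((3 : ℝ) ^ (4 * E')) ^ (1 / 4 : ℝ) := by
        rw [← Real.rpow_natCast, ← Real.rpow_natCast, ← Real.rpow_mul (by norm_num)]
        congr 1
        push_cast
        ring
      rw [h3]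
      refine Real.rpow_le_rpow (by positivity) ?_ (by norm_num)
      have h4 : ((T₀ : ℕ) : ℝ) ≤ T := by exact_mod_cast hTT
      rw [hT₀] at h4
      push_cast at h4
      exact h4
    calc ((H : ℝ) + 2) ^ E' ≤ (3 * (T : ℝ) ^ ε) ^ E' := pow_le_pow_left₀ (by positivity) h1 _
      _ = 3 ^ E' * ((T : ℝ) ^ ε) ^ E' := by rw [mul_pow]
      _ = 3 ^ E' * (T : ℝ) ^ (1 / 4 : ℝ) := by
          rw [← Real.rpow_natCast ((T : ℝ) ^ ε) E', ← Real.rpow_mul hT0.le]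
          congr 2
          rw [hε]
          field_simp
      _ ≤ (T : ℝ) ^ (1 / 4 : ℝ) * (T : ℝ) ^ (1 / 4 : ℝ) := mul_le_mul_of_nonneg_right h2 (by positivity)
      _ = s := by
          rw [hs, ← Real.rpow_add hT0]
          norm_num
  have hH0 : (0 : ℝ) ≤ H := Nat.cast_nonneg H
  have hHs : (H : ℝ) ≤ s := by
    have h1 : (H : ℝ) + 2 ≤ ((H : ℝ) + 2) ^ E' := le_self_pow₀ (by linarith) (by omega)
    linarith
  have hHE : ((H : ℝ) + 2) ^ E ≤ s := (pow_le_pow_right₀ (by linarith) (by omega)).trans hH2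
  have hsT : s ≤ T := by nlinarith
  have hHTn : H ≤ T := by exact_mod_cast hHs.trans hsT
  have hs2 : 2 ≤ s := by
    have h1 : (H : ℝ) + 2 ≤ ((H : ℝ) + 2) ^ E' := le_self_pow₀ (by linarith) (by omega)
    linarith
  have hdc := double_count m Bd M H T s hHTn hHs (by
    intro ξ hξ hsξ S hS
    refine hBd H ξ hHTn hξ (hHE.trans hsξ) ?_ S hS
    calc 2 * (T : ℝ) ≤ T * T := by
          have : 2 ≤ (T : ℝ) := hs2.trans hsT
          nlinarith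
      _ = s ^ 4 := by rw [← hss]; ring
      _ ≤ ‖ξ‖ ^ 4 := pow_le_pow_left₀ hs0.le hsξ 4)
  -- the large points
  set L := (NF m T).filter fun ξ => Bd ξ ∧ 2 * s ≤ ‖ξ‖ with hL
  have hLc : (L.card : ℝ) ≤ M * (C₀ * 2 ^ Mm m) * (T : ℝ) ^ ((Mm m : ℝ) - ε) := by
    have h1 : (L.card : ℝ) * ((H : ℝ) + 1) ≤ M * ((NF m (2 * T)).card : ℝ) := by exact_mod_cast hdc
    have h2 : (T : ℝ) ^ ε ≤ (H : ℝ) + 1 := (Nat.lt_floor_add_one _).le
    have h3 := card_NF m (2 * T) (by omega)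
    have h4 : (L.card : ℝ) * (T : ℝ) ^ ε ≤ M * (C₀ * 2 ^ Mm m) * (T : ℝ) ^ Mm m := by
      calc (L.card : ℝ) * (T : ℝ) ^ ε ≤ (L.card : ℝ) * ((H : ℝ) + 1) := mul_le_mul_of_nonneg_left h2 (Nat.cast_nonneg _)
        _ ≤ M * ((NF m (2 * T)).card : ℝ) := h1
        _ ≤ M * (C₀ * ((2 * T : ℕ) : ℝ) ^ Mm m) := mul_le_mul_of_nonneg_left h3 (Nat.cast_nonneg _)
        _ = _ := by push_cast; rw [mul_pow]; ring
    have h5 : (T : ℝ) ^ ((Mm m : ℝ) - ε) = (T : ℝ) ^ Mm m / (T : ℝ) ^ ε := by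
      rw [Real.rpow_sub hT0, Real.rpow_natCast]
    rw [h5, ← mul_div_assoc, le_div_iff₀ (by positivity)]
    exact h4
  -- the small points
  set B : ℕ := ⌈2 * s⌉₊ with hB
  have hB1 : 1 ≤ B := Nat.one_le_ceil_iff.2 (by linarith)
  have hBs : (B : ℝ) ≤ 4 * s := by
    have h1 := Nat.ceil_lt_add_one (show (0 : ℝ) ≤ 2 * s by linarith)
    have h2 : (B : ℝ) < 2 * s + 1 := h1
    linarith
  set Sm := (NF m T).filter fun ξ => ‖ξ‖ ≤ B with hSm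
  have hSc : (Sm.card : ℝ) ≤ 4 * C₀ * (T : ℝ) ^ ((Mm m : ℝ) - ε) := by
    have h1 := card_small m T B hT hB1
    have h2 : (Sm.card : ℝ) * T ≤ C₀ * (4 * s) * (T : ℝ) ^ Mm m := by
      refine h1.trans ?_
      refine mul_le_mul_of_nonneg_right ?_ (by positivity)
      exact mul_le_mul_of_nonneg_left hBs hC₀0
    have h3 : (Sm.card : ℝ) * s ≤ 4 * C₀ * (T : ℝ) ^ Mm m := by
      rw [← hss] at h2
      have h4 : (Sm.card : ℝ) * s * s ≤ 4 * C₀ * (s * s) ^ Mm m * s := by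
        calc (Sm.card : ℝ) * s * s = (Sm.card : ℝ) * (s * s) := by ring
          _ ≤ C₀ * (4 * s) * (s * s) ^ Mm m := h2
          _ = _ := by ring
      have h5 := le_of_mul_le_mul_right h4 hs0
      rw [hss] at h5
      exact h5
    have h5 : (T : ℝ) ^ ((Mm m : ℝ) - ε) = (T : ℝ) ^ Mm m / (T : ℝ) ^ ε := by
      rw [Real.rpow_sub hT0, Real.rpow_natCast]
    rw [h5, ← mul_div_assoc, le_div_iff₀ (by positivity)]
    refine le_trans ?_ h3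
    refine mul_le_mul_of_nonneg_left ?_ (Nat.cast_nonneg _)
    rw [hs]
    exact Real.rpow_le_rpow_of_exponent_le hT1 (by linarith)
  have hcov : (NF m T).filter (fun ξ => Bd ξ) ⊆ L ∪ Sm := by
    intro ξ hξ
    obtain ⟨hξ1, hξ2⟩ := Finset.mem_filter.1 hξ
    rw [Finset.mem_union]
    rcases le_total (2 * s) ‖ξ‖ with h | h
    · exact Or.inl (Finset.mem_filter.2 ⟨hξ1, hξ2, h⟩)
    · exact Or.inr (Finset.mem_filter.2 ⟨hξ1, h.trans (Nat.le_ceil _)⟩)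
  calc (((NF m T).filter fun ξ => Bd ξ).card : ℝ) ≤ ((L ∪ Sm).card : ℝ) := by exact_mod_cast Finset.card_le_card hcov
    _ ≤ L.card + Sm.card := by exact_mod_cast Finset.card_union_le _ _
    _ ≤ M * (C₀ * 2 ^ Mm m) * (T : ℝ) ^ ((Mm m : ℝ) - ε) + 4 * C₀ * (T : ℝ) ^ ((Mm m : ℝ) - ε) := add_le_add hLc hSc
    _ = (M * (C₀ * 2 ^ Mm m) + 4 * C₀) * (T : ℝ) ^ ((Mm m : ℝ) - ε) := by ring
    _ ≤ _ := mul_le_mul_of_nonneg_right (by
        have : 0 ≤ C₀ * (T₀ : ℝ) ^ ε := by positivity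
        linarith) hbase


/-- integral translates -/
lemma pt_shift {K : IntermediateField ℚ ℂ} {ξ : K} {X : ℝ} (h : Pt K ξ X) (a : ℤ) :
    Pt K (ξ + a) (X * (1 + |(a : ℝ)|)) := by
  obtain ⟨p, q, hp, hq, hq0, hξ, hX⟩ := h
  refine ⟨p + a * q, q, hp.add ((isIntegral_algebraMap (x := a)).mul hq), hq, hq0, ?_, fun σ => ⟨?_, ?_⟩⟩
  · rw [hξ, add_div, mul_div_cancel_right₀ _ hq0]
  · rw [map_add, map_mul, map_intCast]
    refine (norm_add_le _ _).trans ?_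
    rw [norm_mul, Complex.norm_intCast]
    have h1 := (hX σ).1
    have h2 := (hX σ).2
    have h3 : |(a : ℝ)| * ‖σ q‖ ≤ |(a : ℝ)| * X := mul_le_mul_of_nonneg_left h2 (abs_nonneg _)
    linarith
  · have h1 := (hX σ).2
    have h2 : 0 ≤ X := (norm_nonneg _).trans h1
    have h3 := mul_nonneg h2 (abs_nonneg (a : ℝ))
    linarith

/-- few points of a window -/
theorem window_of {κ' : Type} [Fintype κ'] [DecidableEq κ'] {y : ℂ → κ' → ℂ} {Dm : ℂ → Prop} {G : ℤ} (hG : G ≠ 0)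
    {m : ℕ} (hwin : WinN y Dm G m) (d n : ℕ) : ∃ M E B : ℕ, ∀ (T : ℕ) (H : ℕ) (ξ : ℂ), H ≤ T →
    AInt m ((2 * T : ℕ) : ℝ) ξ → ((H : ℝ) + 2) ^ E ≤ ‖ξ‖ → 2 * (T : ℝ) ≤ ‖ξ‖ ^ 4 → ∃ H₀ : ℝ, ∀ Hh : ℝ, H₀ ≤ Hh →
    ∀ (h : Type) [Fintype h], Fintype.card h = n → ∀ ζ : h → ℂ, ∀ S : Finset ℕ, (∀ g ∈ S, g ≤ H ∧ Dm (ξ + g) ∧
      RelA ζ (fun l : κ' → Fin (d + 1) => ∏ k', y (ξ + g) k' ^ (l k' : ℕ)) Hh (Hh ^ B)⁻¹) → S.card ≤ M := by
  classical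
  obtain ⟨M, E₀, B, hw⟩ := hwin d n 6
  set q : ℕ := G.natAbs with hq
  have hq1 : 1 ≤ q := Int.natAbs_pos.2 hG
  refine ⟨q * M, 2 * E₀ + q + 9, B, fun T H ξ hHT hAI hHξ hTξ => ?_⟩
  have hH2 : (2 : ℝ) ≤ (H : ℝ) + 2 := by linarith [show (0 : ℝ) ≤ H by positivity]
  have hH1 : (1 : ℝ) ≤ (H : ℝ) + 2 := by linarith
  have hξ0 : 1 ≤ ‖ξ‖ := (one_le_pow₀ hH1).trans hHξ
  have hT0 : 1 ≤ T := by
    by_contra h
    have hT : T = 0 := by omega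
    obtain ⟨f, h1, h2, h3, h4⟩ := hAI
    have h5 := h4 ξ h3
    rw [hT] at h5
    norm_num at h5
    rw [h5, norm_zero] at hξ0
    linarith
  obtain ⟨K, ξ', hKf, hKd, hξ', hPt⟩ := hAI.pt (by
    push_cast
    have : (1 : ℝ) ≤ T := by exact_mod_cast hT0
    linarith)
  set J : ℕ := H / q with hJ
  have hJH : J ≤ H := Nat.div_le_self _ _
  -- the shift for a residue
  set a : ℕ → ℤ := fun ρ => if 0 < G then (ρ : ℤ) - q else ρ + q * (J + 1) with ha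
  have hab : ∀ ρ < q, |((a ρ : ℤ) : ℝ)| ≤ q * ((H : ℝ) + 2) := by
    intro ρ hρ
    have hρR : (ρ : ℝ) ≤ q := by exact_mod_cast hρ.le
    have hρ0 : (0 : ℝ) ≤ ρ := by positivity
    have hq0 : (0 : ℝ) ≤ q := by positivity
    have hJR : (J : ℝ) ≤ H := by exact_mod_cast hJH
    have hqH : (q : ℝ) * 1 ≤ q * ((H : ℝ) + 2) := mul_le_mul_of_nonneg_left hH1 hq0
    simp only [ha]
    split_ifs
    · push_cast
      rw [abs_le]
      constructor <;> linarith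
    · push_cast
      rw [abs_of_nonneg (by positivity)]
      have : (q : ℝ) * ((J : ℝ) + 1) ≤ q * ((H : ℝ) + 1) := mul_le_mul_of_nonneg_left (by linarith) hq0
      nlinarith
  have hqH : (q : ℝ) * ((H : ℝ) + 2) ≤ ((H : ℝ) + 2) ^ (q + 1) := by
    rw [pow_succ]
    refine mul_le_mul_of_nonneg_right ?_ (by linarith)
    calc (q : ℝ) ≤ ((2 ^ q : ℕ) : ℝ) := by exact_mod_cast (Nat.lt_two_pow_self (n := q)).le
      _ = (2 : ℝ) ^ q := by push_cast; rfl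
      _ ≤ _ := pow_le_pow_left₀ (by norm_num) hH2 _
  have hE1 : ((H : ℝ) + 2) ^ (2 * E₀ + 8) * 2 ≤ ‖ξ‖ := by
    calc ((H : ℝ) + 2) ^ (2 * E₀ + 8) * 2 ≤ ((H : ℝ) + 2) ^ (2 * E₀ + 8) * ((H : ℝ) + 2) :=
          mul_le_mul_of_nonneg_left hH2 (by positivity)
      _ = ((H : ℝ) + 2) ^ (2 * E₀ + 9) := by rw [← pow_succ]
      _ ≤ ((H : ℝ) + 2) ^ (2 * E₀ + q + 9) := pow_le_pow_right₀ hH1 (by omega)
      _ ≤ ‖ξ‖ := hHξ
  have hqξ : 2 * ((q : ℝ) * ((H : ℝ) + 2)) ≤ ‖ξ‖ := by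
    calc 2 * ((q : ℝ) * ((H : ℝ) + 2)) ≤ ((H : ℝ) + 2) * ((H : ℝ) + 2) ^ (q + 1) :=
          mul_le_mul hH2 hqH (by positivity) (by linarith)
      _ = ((H : ℝ) + 2) ^ (q + 2) := by rw [← pow_succ']
      _ ≤ ((H : ℝ) + 2) ^ (2 * E₀ + q + 9) := pow_le_pow_right₀ hH1 (by omega)
      _ ≤ ‖ξ‖ := hHξ
  have hη : ∀ ρ < q, ‖ξ‖ ≤ 2 * ‖((ξ' + (a ρ : ℤ) : K) : ℂ)‖ := by
    intro ρ hρ
    have h1 : ((ξ' + (a ρ : ℤ) : K) : ℂ) = ξ + ((a ρ : ℤ) : ℂ) := by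
      push_cast
      rw [hξ']
    rw [h1]
    have h2 := norm_sub_norm_le ξ (-((a ρ : ℤ) : ℂ))
    rw [sub_neg_eq_add, norm_neg, Complex.norm_intCast] at h2
    have h3 := hab ρ hρ
    linarith
  have hthr : ∀ ρ : ℕ, ρ < q → ∃ H₀ : ℝ, ∀ Hh : ℝ, H₀ ≤ Hh → ∀ (h : Type) [Fintype h], Fintype.card h = n →
      ∀ ζ : h → ℂ, ∀ S : Finset ℕ,
      (∀ g ∈ S, 1 ≤ g ∧ g ≤ J + 1 ∧ Dm (((ξ' + (a ρ : ℤ) : K) : ℂ) + G * g) ∧
        RelA ζ (fun l : κ' → Fin (d + 1) => ∏ k', y (((ξ' + (a ρ : ℤ) : K) : ℂ) + G * g) k' ^ (l k' : ℕ)) Hh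
          (Hh ^ B)⁻¹) → S.card ≤ M := by
    intro ρ hρ
    have h1 := hη ρ hρ
    set z := ‖((ξ' + (a ρ : ℤ) : K) : ℂ)‖ with hz
    have hz1 : ((H : ℝ) + 2) ^ (2 * E₀ + 8) ≤ z := by linarith
    have hz2 : (2 : ℝ) ^ 8 ≤ z := by
      calc (2 : ℝ) ^ 8 ≤ ((H : ℝ) + 2) ^ 8 := pow_le_pow_left₀ (by norm_num) hH2 _
        _ ≤ ((H : ℝ) + 2) ^ (2 * E₀ + 8) := pow_le_pow_right₀ hH1 (by omega)
        _ ≤ z := hz1
    refine hw (J + 1) K (ξ' + (a ρ : ℤ)) _ hKf hKd (pt_shift hPt (a ρ)) ?_ ?_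
    · refine le_trans ?_ hz1
      have hJ3 : ((J + 1 : ℕ) : ℝ) + 2 ≤ ((H : ℝ) + 2) * ((H : ℝ) + 2) := by
        have hJR : (J : ℝ) ≤ H := by exact_mod_cast hJH
        push_cast
        nlinarith [show (0 : ℝ) ≤ H by positivity]
      calc (((J + 1 : ℕ) : ℝ) + 2) ^ E₀ ≤ (((H : ℝ) + 2) * ((H : ℝ) + 2)) ^ E₀ := pow_le_pow_left₀ (by positivity) hJ3 _
        _ = ((H : ℝ) + 2) ^ (2 * E₀) := by rw [← pow_two, ← pow_mul]
        _ ≤ ((H : ℝ) + 2) ^ (2 * E₀ + 8) := pow_le_pow_right₀ hH1 (by omega)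
    · push_cast
      have h2 : 1 + |((a ρ : ℤ) : ℝ)| ≤ ‖ξ‖ := by
        have := hab ρ hρ
        have h4 : (1 : ℝ) ≤ ((H : ℝ) + 2) ^ (2 * E₀ + 8) := one_le_pow₀ hH1
        have h3 : 2 * (1 : ℝ) ≤ ‖ξ‖ := by linarith
        linarith
      calc 2 * (T : ℝ) * (1 + |((a ρ : ℤ) : ℝ)|) ≤ ‖ξ‖ ^ 4 * ‖ξ‖ :=
            mul_le_mul hTξ h2 (by positivity) (by positivity)
        _ = ‖ξ‖ ^ 5 := by ring
        _ ≤ (2 * z) ^ 5 := pow_le_pow_left₀ (norm_nonneg _) h1 5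
        _ = 2 ^ 5 * z ^ 5 := by ring
        _ ≤ z * z ^ 5 := by
            refine mul_le_mul_of_nonneg_right ?_ (by positivity)
            linarith
        _ = z ^ 6 := by ring
  choose! Hf hHf using hthr
  refine ⟨∑ ρ ∈ Finset.range q, |Hf ρ|, fun Hh hHh h _ hh ζ S hS => ?_⟩
  have hfib := Finset.card_eq_sum_card_fiberwise (s := S) (t := Finset.range q) (f := fun g => g % q) (by
    intro g _
    rw [Finset.mem_coe, Finset.mem_range]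
    exact Nat.mod_lt _ hq1)
  rw [hfib]
  have hle : ∀ ρ ∈ Finset.range q, (S.filter fun g => g % q = ρ).card ≤ M := by
    intro ρ hρ
    rw [Finset.mem_range] at hρ
    set φ : ℕ → ℕ := fun g => if 0 < G then g / q + 1 else J + 1 - g / q with hφ
    have hgJ : ∀ g ∈ S, g / q ≤ J := fun g hg => Nat.div_le_div_right (hS g hg).1
    have hinj : Set.InjOn φ (S.filter fun g => g % q = ρ) := by
      intro g hg g' hg' hgg
      rw [Finset.mem_coe, Finset.mem_filter] at hg hg'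
      have h1 := hgJ g hg.1
      have h2 := hgJ g' hg'.1
      have h3 : g / q = g' / q := by
        simp only [hφ] at hgg
        split_ifs at hgg <;> omega
      rw [← Nat.div_add_mod g q, ← Nat.div_add_mod g' q, h3, hg.2, hg'.2]
    rw [← Finset.card_image_of_injOn hinj]
    refine hHf ρ hρ Hh ?_ h hh ζ _ ?_
    · have h1 := Finset.single_le_sum (f := fun ρ => |Hf ρ|) (fun _ _ => abs_nonneg _) (Finset.mem_range.2 hρ)
      exact (le_abs_self _).trans (h1.trans hHh)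
    · intro j hj
      obtain ⟨g, hg, rfl⟩ := Finset.mem_image.1 hj
      rw [Finset.mem_filter] at hg
      have h1 := hgJ g hg.1
      have h2 : (q : ℤ) * ((g / q : ℕ) : ℤ) + ρ = g := by
        have := Nat.div_add_mod g q
        rw [hg.2] at this
        exact_mod_cast this
      have hkey : ((ξ' + (a ρ : ℤ) : K) : ℂ) + (G : ℂ) * ((φ g : ℕ) : ℂ) = ξ + g := by
        have h3 : a ρ + G * ((φ g : ℕ) : ℤ) = g := by
          simp only [ha, hφ]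
          split_ifs with hpos
          · have h4 : G = q := by omega
            rw [h4, ← h2]
            push_cast
            ring
          · have h4 : G = -(q : ℤ) := by omega
            rw [h4, ← h2, Nat.cast_sub (by omega)]
            push_cast
            ring
        have h5 : ((a ρ : ℤ) : ℂ) + (G : ℂ) * ((φ g : ℕ) : ℂ) = (g : ℂ) := by exact_mod_cast congrArg (Int.cast (R := ℂ)) h3
        have h6 : ((ξ' + (a ρ : ℤ) : K) : ℂ) = ξ + ((a ρ : ℤ) : ℂ) := by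
          push_cast
          rw [hξ']
        rw [h6, add_assoc, h5]
      rw [hkey]
      refine ⟨?_, ?_, (hS g hg.1).2.1, (hS g hg.1).2.2⟩
      · simp only [hφ]
        generalize g / q = w at h1
        split_ifs <;> omega
      · simp only [hφ]
        generalize g / q = w at h1
        split_ifs <;> omega
  refine (Finset.sum_le_sum hle).trans ?_
  rw [Finset.sum_const, Finset.card_range, smul_eq_mul]

/-- the exponents and the constants of one variable, general counting function -/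
def OneN {α κ : Type} [Fintype κ] [DecidableEq κ] (X : ℕ → Finset α) (v : α → κ → ℂ) (μ : ℝ) : Prop :=
  ∀ d n : ℕ, ∃ (B : ℕ) (C c : ℝ), 0 ≤ C ∧ 0 < c ∧ ∀ T : ℕ, 1 ≤ T → ∃ H₀ : ℝ, ∀ H : ℝ, H₀ ≤ H →
    ∀ (J : Type) [Fintype J], Fintype.card J = n → ∀ ξ : J → ℂ, ∀ Y ⊆ X T,
    (∀ x ∈ Y, RelA ξ (fun l : κ → Fin (d + 1) => ∏ k, v x k ^ (l k : ℕ)) H (H ^ B)⁻¹) →
    (Y.card : ℝ) ≤ C * (T : ℝ) ^ (μ - c)

open Classical in
/-- few algebraic integers -/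
theorem oneN_of {κ' : Type} [Fintype κ'] [DecidableEq κ'] {y : ℂ → κ' → ℂ} {Dm : ℂ → Prop} {G : ℤ} (hG : G ≠ 0)
    {m : ℕ} (hwin : WinN y Dm G m) : OneN (fun T => (NF m T).filter fun ξ => Dm ξ) y (Mm m) := by
  intro d n
  obtain ⟨M, E, B, hw⟩ := window_of hG hwin d n
  obtain ⟨c, hc, C, hC, hcount⟩ := count_abs m M E
  refine ⟨B, C, c, hC, hc, fun T hT => ?_⟩
  have hw' : ∀ (p : ℕ × ℂ), (p.1 ≤ T ∧ AInt m ((2 * T : ℕ) : ℝ) p.2 ∧ ((p.1 : ℝ) + 2) ^ E ≤ ‖p.2‖ ∧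
      2 * (T : ℝ) ≤ ‖p.2‖ ^ 4) → ∃ H₀ : ℝ, ∀ Hh : ℝ, H₀ ≤ Hh →
      ∀ (h : Type) [Fintype h], Fintype.card h = n → ∀ ζ : h → ℂ, ∀ S : Finset ℕ, (∀ g ∈ S, g ≤ p.1 ∧ Dm (p.2 + g) ∧
        RelA ζ (fun l : κ' → Fin (d + 1) => ∏ k', y (p.2 + g) k' ^ (l k' : ℕ)) Hh (Hh ^ B)⁻¹) → S.card ≤ M :=
    fun p hp => hw T p.1 p.2 hp.1 hp.2.1 hp.2.2.1 hp.2.2.2
  choose! Hf hHf using hw'
  refine ⟨∑ p ∈ Finset.range (T + 1) ×ˢ NF m (2 * T), |Hf p|, fun H hH J _ hJ ξ Y hY hrel => ?_⟩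
  have h1 := hcount T hT (fun x => Dm x ∧ RelA ξ (fun l : κ' → Fin (d + 1) => ∏ k', y x k' ^ (l k' : ℕ)) H (H ^ B)⁻¹) (by
    intro Hw x hHw hx h2 h3 S hS
    refine hHf (Hw, x) ⟨hHw, hx, h2, h3⟩ H ?_ J hJ ξ S hS
    have h4 := Finset.single_le_sum (f := fun p : ℕ × ℂ => |Hf p|) (fun _ _ => abs_nonneg _)
      (show (Hw, x) ∈ Finset.range (T + 1) ×ˢ NF m (2 * T) by
        rw [Finset.mem_product, Finset.mem_range]
        exact ⟨by omega, mem_NF.2 hx⟩)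
    exact (le_abs_self _).trans (h4.trans hH))
  refine le_trans ?_ h1
  have h2 : Y ⊆ (NF m T).filter fun x => Dm x ∧
      RelA ξ (fun l : κ' → Fin (d + 1) => ∏ k', y x k' ^ (l k' : ℕ)) H (H ^ B)⁻¹ := by
    intro x hx
    have h3 := Finset.mem_filter.1 (hY hx)
    exact Finset.mem_filter.2 ⟨h3.1, h3.2, hrel x hx⟩
  have h3 := Finset.card_le_card h2
  have h4 : (Y.card : ℝ) ≤ (((NF m T).filter fun x => Dm x ∧
      RelA ξ (fun l : κ' → Fin (d + 1) => ∏ k', y x k' ^ (l k' : ℕ)) H (H ^ B)⁻¹).card : ℝ) := by exact_mod_cast h3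
  refine h4.trans (le_of_eq ?_)
  congr!

end Pool.Agent.Q246.NR2
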