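import Pool.Agent.Q246.NR2.MultiN
import Pool.Agent.Q246.NR2.ScalesN
import Pool.Agent.Q246.NR2.Trans

/-!
# Measures of algebraic independence for almost all tuples
-/

set_option autoImplicit false

namespace Pool.Agent.Q246.NR2

open Pool.Agent.Q246.NR

/-- `P = Σ P_e(Y) X ^ e` has degree at most `d` in `X`, its coefficients `P_e` have degree at most `d` in `Y`,
and the integer coefficients are at most `H` in absolute value -/
def Adm {σ : Type} {g : ℕ} (d : ℕ) (H : ℝ) (P : MvPolynomial σ (MvPolynomial (Fin g) ℤ)) : Prop :=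
  P.totalDegree ≤ d ∧ ∀ e, (P.coeff e).totalDegree ≤ d ∧ ∀ f, |(((P.coeff e).coeff f : ℤ) : ℝ)| ≤ H

/-- the value `P(ζ, w)` -/
noncomputable def val {σ : Type} {g : ℕ} (ζ : Fin g → ℂ) (w : σ → ℂ) (P : MvPolynomial σ (MvPolynomial (Fin g) ℤ)) :
    ℂ := MvPolynomial.eval₂ (MvPolynomial.aeval ζ).toRingHom w P

/-- the measure of algebraic independence of the numbers `w` for polynomials of degree at most `d` and height
at most `H`, also relative to the constants `ζ` -/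
def Good {σ : Type} {g : ℕ} (d B : ℕ) (ζ : Fin g → ℂ) (w : σ → ℂ) (H : ℝ) : Prop :=
  (∀ P : MvPolynomial σ ℤ, P ≠ 0 → P.totalDegree ≤ d → (∀ e, |((P.coeff e : ℤ) : ℝ)| ≤ H) →
    1 ≤ H ^ B * ‖MvPolynomial.aeval w P‖) ∧
  ∀ P : MvPolynomial σ (MvPolynomial (Fin g) ℤ), Adm d H P →
    ∀ e, ‖MvPolynomial.aeval ζ (P.coeff e)‖ ≤ H ^ B * ‖val ζ w P‖

/-- the first part of `Good` follows from the second part -/
lemma good_of {σ : Type} {g : ℕ} {d B : ℕ} {ζ : Fin g → ℂ} {w : σ → ℂ} {H : ℝ}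
    (h : ∀ P : MvPolynomial σ (MvPolynomial (Fin g) ℤ), Adm d H P →
      ∀ e, ‖MvPolynomial.aeval ζ (P.coeff e)‖ ≤ H ^ B * ‖val ζ w P‖) : Good d B ζ w H := by
  refine ⟨fun P hP hd hH => ?_, h⟩
  obtain ⟨e, he⟩ := MvPolynomial.support_nonempty.2 hP
  rw [MvPolynomial.mem_support_iff] at he
  have hH0 : 0 ≤ H := (abs_nonneg _).trans (hH e)
  set P' : MvPolynomial σ (MvPolynomial (Fin g) ℤ) := MvPolynomial.map (MvPolynomial.C) P with hP'
  have hadm : Adm d H P' := by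
    refine ⟨?_, fun e => ⟨?_, fun f => ?_⟩⟩
    · refine le_trans ?_ hd
      unfold MvPolynomial.totalDegree
      exact Finset.sup_mono (MvPolynomial.support_map_subset _ _)
    · rw [hP', MvPolynomial.coeff_map, MvPolynomial.totalDegree_C]
      exact Nat.zero_le _
    · rw [hP', MvPolynomial.coeff_map, MvPolynomial.coeff_C]
      split_ifs
      · exact hH e
      · simpa using hH0
  have h1 := h P' hadm e
  have h2 : MvPolynomial.aeval ζ (P'.coeff e) = ((P.coeff e : ℤ) : ℂ) := by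
    rw [hP', MvPolynomial.coeff_map, MvPolynomial.aeval_C]
    simp
  have h3 : val ζ w P' = MvPolynomial.aeval w P := by
    rw [val, hP', MvPolynomial.eval₂_map, MvPolynomial.aeval_def]
    congr 1
    exact RingHom.ext_int _ _
  rw [h2, h3, Complex.norm_intCast] at h1
  have h5 : (1 : ℝ) ≤ |((P.coeff e : ℤ) : ℝ)| := by exact_mod_cast Int.one_le_abs he
  exact h5.trans h1

lemma Good.mono {σ : Type} {g : ℕ} {d B : ℕ} {ζ : Fin g → ℂ} {w : σ → ℂ} {H H' : ℝ} (h1 : 1 ≤ H) (h2 : H ≤ H')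
    (h3 : H' ≤ H ^ 2) (hg : Good d B ζ w H') : Good d (2 * B) ζ w H := by
  apply good_of
  intro P hP e
  have hP' : Adm d H' P := ⟨hP.1, fun e => ⟨(hP.2 e).1, fun f => ((hP.2 e).2 f).trans h2⟩⟩
  refine (hg.2 P hP' e).trans ?_
  refine mul_le_mul_of_nonneg_right ?_ (norm_nonneg _)
  rw [pow_mul]
  exact pow_le_pow_left₀ (by linarith) h3 _

/-- a point which is not good has a near relation -/
lemma rel_of_bad {σ : Type} [Fintype σ] [DecidableEq σ] {g : ℕ} {d B : ℕ} {ζ : Fin g → ℂ} {w : σ → ℂ} {H : ℝ}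
    (hH1 : 1 ≤ H) (hbad : ¬ Good d B ζ w H) :
    RelA (fun f : Fin g → Fin (d + 1) => ∏ s, ζ s ^ (f s : ℕ)) (fun e : σ → Fin (d + 1) => ∏ k, w k ^ (e k : ℕ)) H
      (H ^ B)⁻¹ := by
  have hHB : 0 < H ^ B := by positivity
  by_contra hrel
  apply hbad
  apply good_of
  intro P hP e₀
  by_contra hcon
  rw [not_le] at hcon
  apply hrel
  have hne : MvPolynomial.aeval ζ (P.coeff e₀) ≠ 0 := by
    intro h
    rw [h, norm_zero] at hcon
    have : 0 ≤ H ^ B * ‖val ζ w P‖ := by positivity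
    linarith
  have he₀ : e₀ ∈ P.support := by
    rw [MvPolynomial.mem_support_iff]
    intro h
    rw [h, map_zero] at hne
    exact hne rfl
  obtain ⟨e₁, he₁⟩ := tB_surj P hP.1 e₀ he₀
  have h1 : ∀ l : σ → Fin (d + 1), ∑ f : Fin g → Fin (d + 1), (∏ s, ζ s ^ (f s : ℕ)) *
      ((((P.coeff (tB l)).coeff (tB f) : ℤ)) : ℂ) = MvPolynomial.aeval ζ (P.coeff (tB l)) := by
    intro l
    rw [MvPolynomial.aeval_def, eval_tB _ _ (hP.2 (tB l)).1 ζ]
    refine Finset.sum_congr rfl fun f _ => ?_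
    rw [eq_intCast, mul_comm]
  refine ⟨fun l f => (P.coeff (tB l)).coeff (tB f), fun l f => (hP.2 _).2 _, e₁, ?_, ?_⟩
  · rw [h1, he₁]
    exact hne
  · simp only [h1]
    rw [he₁, inv_mul_eq_div, le_div_iff₀ hHB, mul_comm]
    refine le_trans (le_of_eq ?_) hcon.le
    rw [val, eval_tB _ P hP.1]
    rfl

open Classical in
/-- **Many heights, one exceptional set**, for almost all tuples -/
theorem master {α κ : Type} [Fintype κ] [DecidableEq κ] (μ C₀ : ℝ) (hC₀ : 0 ≤ C₀) (k : ℕ) (X : Fin k → ℕ → Finset α)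
    (v : Fin k → α → κ → ℂ) (hv : ∀ j, OneN (X j) (v j) μ)
    (hX : ∀ j T, 1 ≤ T → ((X j T).card : ℝ) ≤ C₀ * (T : ℝ) ^ μ) (g d : ℕ) :
    ∃ (B : ℕ) (C c : ℝ), 0 < c ∧ ∀ T : ℕ, 1 ≤ T →
    (∃ H₀ : ℝ, ∀ H₁ : ℝ, H₀ ≤ H₁ → ∀ ζ : Fin g → ℂ,
      ((((Fintype.piFinset fun j => X j T).filter fun x => ¬ ∀ H : ℝ, H₁ ≤ H → H ≤ H₁ ^ Real.exp ((T : ℝ) ^ c) →
        Good d B ζ (fun p : Fin k × κ => v p.1 (x p.1) p.2) H).card : ℕ) : ℝ) ≤ C * (T : ℝ) ^ ((k : ℝ) * μ - c)) ∧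
    ∀ ζ : Fin g → ℂ, ((((Fintype.piFinset fun j => X j T).filter fun x => ¬ ∀ N₀ : ℕ, ∃ N, N₀ ≤ N ∧
      ((((Finset.range N).filter fun j : ℕ => ¬ ∀ H : ℝ, 2 ^ (2 ^ j) ≤ H → H ≤ 2 ^ (2 ^ (j + 1)) →
        Good d B ζ (fun p : Fin k × κ => v p.1 (x p.1) p.2) H).card : ℕ) : ℝ) ≤
          (T : ℝ) ^ (-c) * N).card : ℕ) : ℝ) ≤ C * (T : ℝ) ^ ((k : ℝ) * μ - c) := by
  obtain ⟨B, C, c, hC, hc, hmain⟩ := multi μ C₀ hC₀ k X v hv hX d ((d + 1) ^ g)
  have hXc : ∀ T : ℕ, 1 ≤ T → (((Fintype.piFinset fun j => X j T).card : ℕ) : ℝ) ≤ C₀ ^ k * (T : ℝ) ^ ((k : ℝ) * μ) := by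
    intro T hT
    have hTR : (1 : ℝ) ≤ T := by exact_mod_cast hT
    have hTp : (0 : ℝ) < T := by linarith
    rw [Fintype.card_piFinset]
    push_cast
    calc ∏ j : Fin k, ((X j T).card : ℝ) ≤ ∏ _j : Fin k, (C₀ * (T : ℝ) ^ μ) :=
          Finset.prod_le_prod (fun _ _ => Nat.cast_nonneg _) fun j _ => hX j T hT
      _ = C₀ ^ k * (T : ℝ) ^ ((k : ℝ) * μ) := by
          rw [Finset.prod_const, Finset.card_univ, Fintype.card_fin, mul_pow]
          congr 1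
          rw [← Real.rpow_natCast, ← Real.rpow_mul hTp.le, mul_comm]
  -- the basic statement
  have hbase : ∀ T : ℕ, 1 ≤ T → ∃ H₀ : ℝ, ∀ H : ℝ, H₀ ≤ H → ∀ ζ : Fin g → ℂ,
      ((((Fintype.piFinset fun j => X j T).filter fun x =>
        ¬ Good d B ζ (fun p : Fin k × κ => v p.1 (x p.1) p.2) H).card : ℕ) : ℝ) ≤ C * (T : ℝ) ^ ((k : ℝ) * μ - c) := by
    intro T hT
    obtain ⟨H₀, hH₀⟩ := hmain T hT
    refine ⟨max H₀ 1, fun H hH ζ => ?_⟩
    have hH1 : 1 ≤ H := (le_max_right _ _).trans hH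
    refine hH₀ H ((le_max_left _ _).trans hH) (Fin g → Fin (d + 1)) (by simp) (fun f => ∏ s, ζ s ^ (f s : ℕ)) _
      (Finset.filter_subset _ _) ?_
    intro x hx
    have hbad := (Finset.mem_filter.1 hx).2
    obtain ⟨c', hc', l₀, hl₀, hs⟩ := rel_of_bad hH1 hbad
    refine ⟨fun e => c' (fun p => e p.1 p.2), fun e s => hc' _ s, fun j i => l₀ (j, i), hl₀, ?_⟩
    refine le_trans (le_of_eq ?_) hs
    congr 1
    let eqv : (Fin k → κ → Fin (d + 1)) ≃ (Fin k × κ → Fin (d + 1)) := (Equiv.curry (Fin k) κ (Fin (d + 1))).symm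
    rw [← eqv.sum_comp]
    refine Finset.sum_congr rfl fun e _ => ?_
    have h1 : mg v x e = ∏ p : Fin k × κ, v p.1 (x p.1) p.2 ^ (eqv e p : ℕ) := by
      rw [mg, Fintype.prod_prod_type]
      rfl
    change _ * mg v x e = _
    rw [h1]
    rfl
  -- many heights
  have hfin := scales (fun T => Fintype.piFinset fun j => X j T)
    (fun (ζ : Fin g → ℂ) x H => Good d B ζ (fun p : Fin k × κ => v p.1 (x p.1) p.2) H)
    (fun ζ x H => Good d (2 * B) ζ (fun p : Fin k × κ => v p.1 (x p.1) p.2) H)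
    (fun ζ x H H' h1 h2 h3 hg => hg.mono h1 h2 h3) ((k : ℝ) * μ) (C₀ ^ k) C c (by positivity) hC hc hXc hbase
  exact ⟨2 * B, 4 * C + 1, c / 2, by linarith, fun T hT => hfin T hT⟩

end Pool.Agent.Q246.NR2
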