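import Pool.Agent.Q246.NR.WinLog
import Pool.Agent.Q246.NR2.Win

/-!
# Logarithms: the input
-/

set_option autoImplicit false

open Module

namespace Pool.Agent.Q246.NR2

open Pool.Agent.Q246.NR Pool.Agent.Y916.Al Pool.Agent.Y419.LB

lemma pt_inv {K : IntermediateField ℚ ℂ} {ξ : K} {X : ℝ} (h : Pt K ξ X) (h0 : ξ ≠ 0) : Pt K ξ⁻¹ X := by
  obtain ⟨u, w, hu, hw, hw0, hξ, hX⟩ := h
  refine ⟨w, u, hw, hu, ?_, ?_, fun σ => ⟨(hX σ).2, (hX σ).1⟩⟩
  · rintro rfl
    exact h0 (by rw [hξ, zero_div])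
  · rw [hξ, inv_div]

/-- the values `log (1 - g / ξ)` -/
theorem inpN_log : InpN (fun (ξ : ℂ) (g : ℕ) (_ : Unit) => Complex.log (1 - (g : ℂ) * ξ⁻¹)) := by
  intro N D m A
  obtain ⟨E, B, hEB⟩ := logLowK N D m A
  refine ⟨(N + 2) * E + 1, B, fun H K ξ X hK hm hPt hξ hX g hinj hg => ?_⟩
  have hH2 : (2 : ℝ) ≤ (H : ℝ) + 2 := by linarith [show (0 : ℝ) ≤ H by positivity]
  have hH1 : (1 : ℝ) ≤ (H : ℝ) + 2 := by linarith
  have hξ2 : 1 < ‖(ξ : ℂ)‖ := by
    calc (1 : ℝ) < (H : ℝ) + 2 := by linarith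
      _ ≤ ((H : ℝ) + 2) ^ ((N + 2) * E + 1) := le_self_pow₀ hH1 (by omega)
      _ ≤ _ := hξ
  have hξ0 : ξ ≠ 0 := by
    rintro rfl
    simp at hξ2
    linarith
  have hξp : 0 < ‖(ξ : ℂ)‖ := by linarith
  have hxC : ((ξ⁻¹ : K) : ℂ) = (ξ : ℂ)⁻¹ := by push_cast; rfl
  set T : Polynomial ℤ := ∏ i, (1 - Polynomial.C (g i : ℤ) * Polynomial.X) with hT
  have hTc : ∀ l, |T.coeff l| ≤ (((H + 2) ^ N : ℕ) : ℤ) := by
    intro l
    have h1 : Dm T (((H : ℝ) + 2) ^ N) := by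
      refine Dm_prod _ fun i => ?_
      have h2 : Dm (1 - Polynomial.C (g i : ℤ) * Polynomial.X) (1 + (g i : ℝ)) := by
        rw [sub_eq_add_neg]
        refine Dm.one.add (Dm.neg ?_)
        refine ⟨Polynomial.C (g i : ℝ) * Polynomial.X, fun l => ?_, ?_⟩
        · rw [Polynomial.coeff_C_mul, Polynomial.coeff_C_mul, Polynomial.coeff_X, Polynomial.coeff_X]
          split_ifs
          · push_cast
            simp only [mul_one]
            rw [abs_of_nonneg (by positivity)]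
          · simp
        · simp
      refine h2.mono ?_
      have : (g i : ℝ) ≤ H := by exact_mod_cast (hg i).2
      linarith
    have h2 := h1.coeff l
    have h3 : ((|T.coeff l| : ℤ) : ℝ) ≤ ((((H + 2) ^ N : ℕ) : ℤ) : ℝ) := by
      push_cast
      exact h2
    exact_mod_cast h3
  have hHN : ((((H + 2) ^ N : ℕ) : ℝ) + 2) ≤ ((H : ℝ) + 2) ^ (N + 2) := by
    push_cast
    have h1 : (1 : ℝ) ≤ ((H : ℝ) + 2) ^ N := one_le_pow₀ hH1
    have h2 : (4 : ℝ) ≤ ((H : ℝ) + 2) * ((H : ℝ) + 2) := by nlinarith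
    have h3 : ((H : ℝ) + 2) ^ N * 4 ≤ ((H : ℝ) + 2) ^ N * (((H : ℝ) + 2) * ((H : ℝ) + 2)) :=
      mul_le_mul_of_nonneg_left h2 (by positivity)
    have h4 : ((H : ℝ) + 2) ^ (N + 2) = ((H : ℝ) + 2) ^ N * (((H : ℝ) + 2) * ((H : ℝ) + 2)) := by ring
    rw [h4]
    linarith
  have hmain := hEB ((H + 2) ^ N) T K ξ⁻¹ X (fun i => (g i : K)) hK hm (inv_ne_zero hξ0) (pt_inv hPt hξ0) (by
      rw [hxC, norm_inv, inv_mul_le_iff₀ hξp, mul_one]
      calc ((((H + 2) ^ N : ℕ) : ℝ) + 2) ^ E ≤ (((H : ℝ) + 2) ^ (N + 2)) ^ E :=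
            pow_le_pow_left₀ (by positivity) hHN _
        _ = ((H : ℝ) + 2) ^ ((N + 2) * E) := by rw [← pow_mul]
        _ ≤ ((H : ℝ) + 2) ^ ((N + 2) * E + 1) := pow_le_pow_right₀ hH1 (by omega)
        _ ≤ _ := hξ) (by
      rw [hxC, norm_inv, inv_pow, mul_inv_le_iff₀ (by positivity), one_mul]
      exact hX) hTc (by
      rw [hT, Polynomial.map_prod]
      refine Finset.prod_congr rfl fun i _ => ?_
      simp) (by
      intro i j hij
      have h1 : (g i : K) = g j := hij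
      exact hinj (by exact_mod_cast h1)) (fun i => by
      have := (hg i).1
      exact Nat.cast_ne_zero.2 (by omega)) (fun i => isIntegral_natCast (g i))
  have h1 : (fun p : Fin N × Unit => Complex.log (1 - ((g p.1 : K) : ℂ) * ((ξ⁻¹ : K) : ℂ))) =
      (fun p : Fin N × Unit => Complex.log (1 - (g p.1 : ℂ) * (ξ : ℂ)⁻¹)) := by
    funext p
    rw [hxC]
    push_cast
    rfl
  rw [h1] at hmain
  exact hmain

/-- a family with a retraction is independent -/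
lemma indep_of_retract {κ κ' : Type} {F : κ' → MvPolynomial κ ℂ} (ψ : MvPolynomial κ ℂ →ₐ[ℂ] MvPolynomial κ' ℂ)
    (h : ∀ k', ψ (F k') = MvPolynomial.X k') : AlgebraicIndependent ℂ F := by
  rw [algebraicIndependent_iff]
  intro p hp
  have h1 : ψ (MvPolynomial.aeval F p) = p := by
    rw [MvPolynomial.comp_aeval_apply]
    simp only [h]
    exact MvPolynomial.aeval_X_left_apply p
  rw [← h1, hp, map_zero]

/-- affine changes of variables -/
lemma indep_affine {κ : Type} {F : κ → MvPolynomial κ ℂ} (a b : κ → ℂ) (ha : ∀ k, a k ≠ 0)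
    (hF : ∀ k, F k = MvPolynomial.C (a k) * MvPolynomial.X k + MvPolynomial.C (b k)) : AlgebraicIndependent ℂ F := by
  refine indep_of_retract (MvPolynomial.aeval fun k => MvPolynomial.C (a k)⁻¹ * (MvPolynomial.X k - MvPolynomial.C (b k)))
    fun k => ?_
  rw [hF, map_add, map_mul, MvPolynomial.aeval_X, MvPolynomial.aeval_C, MvPolynomial.aeval_C]
  change MvPolynomial.C (a k) * (MvPolynomial.C (a k)⁻¹ * (MvPolynomial.X k - MvPolynomial.C (b k))) +
    MvPolynomial.C (b k) = MvPolynomial.X k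
  rw [← mul_assoc, ← map_mul, mul_inv_cancel₀ (ha k), map_one, one_mul]
  ring

/-- an arbitrary choice of logarithms -/
theorem link_log (L : ℂ → ℂ) (hL : ∀ z, z ≠ 0 → Complex.exp (L z) = z) (m : ℕ) :
    LinkN (fun (ξ : ℂ) (g : ℕ) (_ : Unit) => Complex.log (1 - (g : ℂ) * ξ⁻¹)) (fun z (_ : Unit) => L z)
      (fun z => z ≠ 0) (-1) (Fin 2) m 1 1 := by
  intro K ξ _ _
  refine ⟨![Complex.log ξ, 2 * Real.pi * Complex.I], fun g hg hξ hD => ?_⟩
  have hξ0 : (ξ : ℂ) ≠ 0 := by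
    intro h
    rw [h, norm_zero, pow_one] at hξ
    linarith [show (0 : ℝ) ≤ g by positivity]
  have hz : (ξ : ℂ) + ((-1 : ℤ) : ℂ) * g = ξ * (1 - (g : ℂ) * (ξ : ℂ)⁻¹) := by
    push_cast
    field_simp
    ring
  have hD' : (ξ : ℂ) + ((-1 : ℤ) : ℂ) * g ≠ 0 := hD
  have h1 : 1 - (g : ℂ) * (ξ : ℂ)⁻¹ ≠ 0 := by
    intro h
    rw [hz, h, mul_zero] at hD'
    exact hD' rfl
  have h2 : Complex.exp (L ((ξ : ℂ) + ((-1 : ℤ) : ℂ) * g)) =
      Complex.exp (Complex.log ξ + Complex.log (1 - (g : ℂ) * (ξ : ℂ)⁻¹)) := by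
    rw [hL _ hD', Complex.exp_add, Complex.exp_log hξ0, Complex.exp_log h1, hz]
  obtain ⟨n, hn⟩ := Complex.exp_eq_exp_iff_exists_int.1 h2
  refine ⟨fun _ => MvPolynomial.X (Sum.inl ()) + MvPolynomial.X (Sum.inr 0) +
    MvPolynomial.C n * MvPolynomial.X (Sum.inr 1), fun _ => ?_, ?_, fun _ => ?_⟩
  · refine (MvPolynomial.totalDegree_add _ _).trans (max_le ((MvPolynomial.totalDegree_add _ _).trans (max_le ?_ ?_)) ?_)
    · rw [MvPolynomial.totalDegree_X]
    · rw [MvPolynomial.totalDegree_X]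
    · refine (MvPolynomial.totalDegree_mul _ _).trans ?_
      rw [MvPolynomial.totalDegree_C, MvPolynomial.totalDegree_X]
  · refine indep_affine (fun _ => 1) (fun _ => Complex.log ξ + n * (2 * Real.pi * Complex.I)) (fun _ => one_ne_zero)
      fun k => ?_
    simp only [map_add, map_mul, MvPolynomial.aeval_X, MvPolynomial.aeval_C, Sum.elim_inl, Sum.elim_inr, map_one,
      one_mul, map_intCast, Matrix.cons_val_zero, Matrix.cons_val_one]
    simp
    ring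
  · simp only [map_add, map_mul, MvPolynomial.aeval_X, MvPolynomial.aeval_C, Sum.elim_inl, Sum.elim_inr]
    rw [hn]
    simp
    ring

end Pool.Agent.Q246.NR2
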