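import Pool.Agent.Q246.NR.Multi
import Pool.Agent.Q246.NR2.Count

/-!
# Several points: an abstract induction, general counting functions
-/

set_option autoImplicit false
set_option linter.unusedSectionVars false

open Finset

namespace Pool.Agent.Q246.NR2

open Pool.Agent.Q246.NR

theorem multi {α κ : Type} [Fintype κ] [DecidableEq κ] (μ C₀ : ℝ) (hC₀ : 0 ≤ C₀) (k : ℕ) :
    ∀ (X : Fin k → ℕ → Finset α) (v : Fin k → α → κ → ℂ) (_ : ∀ j, OneN (X j) (v j) μ)
      (_ : ∀ j T, 1 ≤ T → ((X j T).card : ℝ) ≤ C₀ * (T : ℝ) ^ μ) (d n : ℕ),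
    ∃ (B : ℕ) (C c : ℝ), 0 ≤ C ∧ 0 < c ∧ ∀ T : ℕ, 1 ≤ T → ∃ H₀ : ℝ, ∀ H : ℝ, H₀ ≤ H →
      ∀ (J : Type) [Fintype J], Fintype.card J = n → ∀ ξ : J → ℂ, ∀ Y ⊆ Fintype.piFinset (fun j => X j T),
        (∀ x ∈ Y, RelA ξ (fun e : Fin k → κ → Fin (d + 1) => mg v x e) H (H ^ B)⁻¹) →
        (Y.card : ℝ) ≤ C * (T : ℝ) ^ ((k : ℝ) * μ - c) := by
  classical
  induction k with
  | zero =>
    intro X v _ _ d n
    refine ⟨1, 0, 1, le_rfl, one_pos, fun T hT => ⟨2, fun H hH J _ _ ξ Y hY hrel => ?_⟩⟩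
    have hemp : Y = ∅ := by
      rw [Finset.eq_empty_iff_forall_notMem]
      intro x hx
      obtain ⟨c, hc, l₀, hl₀, hs⟩ := hrel x hx
      have h1 : ∑ l : Fin 0 → κ → Fin (d + 1), (∑ s, ξ s * (c l s : ℂ)) * mg v x l = ∑ s, ξ s * (c l₀ s : ℂ) := by
        rw [Fintype.sum_subsingleton _ l₀]
        simp [mg]
      rw [h1] at hs
      have h2 : 0 < ‖∑ s, ξ s * (c l₀ s : ℂ)‖ := norm_pos_iff.2 hl₀
      have h3 : (H ^ 1)⁻¹ ≤ 1 / 2 := by
        rw [pow_one, one_div]
        exact inv_anti₀ (by norm_num) hH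
      nlinarith
    rw [hemp]
    simp
  | succ k ih =>
    intro X v hv hX d n
    obtain ⟨Bk, Ck, ck, hCk, hck, hk⟩ := ih (fun j => X j.succ) (fun j => v j.succ) (fun j => hv j.succ)
      (fun j => hX j.succ) d n
    obtain ⟨B1, C1, c1, hC1, hc1, h1⟩ := hv 0 d (Fintype.card (Fin k → κ → Fin (d + 1)) * n)
    refine ⟨B1 + Bk, C₀ * Ck + C₀ ^ k * C1, min ck c1, by positivity, lt_min hck hc1, fun T hT => ?_⟩
    obtain ⟨Hk, hHk⟩ := hk T hT
    obtain ⟨H1, hH1⟩ := h1 T hT
    refine ⟨max (max Hk H1) 1, fun H hH J _ hJ ξ Y hY hrel => ?_⟩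
    have hHHk : Hk ≤ H := (le_max_left _ _).trans ((le_max_left _ _).trans hH)
    have hHH1 : H1 ≤ H := (le_max_right _ _).trans ((le_max_left _ _).trans hH)
    have hHone : 1 ≤ H := (le_max_right _ _).trans hH
    have hHp : 0 < H := by linarith
    have hTR : (1 : ℝ) ≤ T := by exact_mod_cast hT
    have hTp : (0 : ℝ) < T := by linarith
    -- the exceptional tails
    set Z : Finset (Fin k → α) := (Fintype.piFinset fun j : Fin k => X j.succ T).filter fun x' =>
      RelA ξ (fun e : Fin k → κ → Fin (d + 1) => mg (fun j => v j.succ) x' e) H (H ^ Bk)⁻¹ with hZ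
    have hZc := hHk H hHHk J hJ ξ Z (Finset.filter_subset _ _) (fun x hx => (Finset.mem_filter.1 hx).2)
    have hYt : ∀ x ∈ Y, (fun j : Fin k => x j.succ) ∈ Fintype.piFinset fun j : Fin k => X j.succ T := by
      intro x hx
      have := Fintype.mem_piFinset.1 (hY hx)
      exact Fintype.mem_piFinset.2 fun j => this j.succ
    -- the fibres over good tails
    have hfib : ∀ x' : Fin k → α, x' ∉ Z →
        (((Y.filter fun x => (fun j : Fin k => x j.succ) = x').card : ℕ) : ℝ) ≤ C1 * (T : ℝ) ^ (μ - c1) := by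
      intro x' hx'
      set Yx := (Y.filter fun x => (fun j : Fin k => x j.succ) = x') with hYx
      have hinj : (Yx.image fun x => x 0).card = Yx.card := by
        refine Finset.card_image_of_injOn ?_
        intro x hx y hy hxy
        rw [Finset.mem_coe, Finset.mem_filter] at hx hy
        funext j
        refine Fin.cases hxy (fun i => ?_) j
        exact congrFun (hx.2.trans hy.2.symm) i
      rw [← hinj]
      refine hH1 H hHH1 ((Fin k → κ → Fin (d + 1)) × J) (by rw [Fintype.card_prod, hJ])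
        (fun p => ξ p.2 * mg (fun j => v j.succ) x' p.1) _ ?_ ?_
      · intro y hy
        obtain ⟨x, hx, rfl⟩ := Finset.mem_image.1 hy
        exact Fintype.mem_piFinset.1 (hY (Finset.mem_filter.1 hx).1) 0
      · intro y hy
        obtain ⟨x, hx, rfl⟩ := Finset.mem_image.1 hy
        obtain ⟨hxY, hxx'⟩ := Finset.mem_filter.1 hx
        obtain ⟨c, hc, l₀, hl₀, hs⟩ := hrel x hxY
        have hx'pi : x' ∈ Fintype.piFinset fun j : Fin k => X j.succ T := by
          rw [← hxx']
          exact hYt x hxY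
        have hnot : ¬ RelA ξ (fun e : Fin k → κ → Fin (d + 1) => mg (fun j => v j.succ) x' e) H (H ^ Bk)⁻¹ :=
          fun hcon => hx' (Finset.mem_filter.2 ⟨hx'pi, hcon⟩)
        -- the combination for the exponent of the first variable
        set W : (κ → Fin (d + 1)) → ℂ := fun l =>
          ∑ p : (Fin k → κ → Fin (d + 1)) × J, (ξ p.2 * mg (fun j => v j.succ) x' p.1) *
            (c (Fin.cons l p.1) p.2 : ℂ) with hW
        have hWe : ∀ l, W l = ∑ e : Fin k → κ → Fin (d + 1), (∑ s, ξ s * (c (Fin.cons l e) s : ℂ)) *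
            mg (fun j => v j.succ) x' e := by
          intro l
          simp only [hW]
          rw [Fintype.sum_prod_type]
          refine Finset.sum_congr rfl fun e _ => ?_
          rw [Finset.sum_mul]
          refine Finset.sum_congr rfl fun s _ => ?_
          ring
        have htot : ∑ e : Fin (k + 1) → κ → Fin (d + 1), (∑ s, ξ s * (c e s : ℂ)) * mg v x e =
            ∑ l : κ → Fin (d + 1), W l * ∏ i, v 0 (x 0) i ^ (l i : ℕ) := by
          rw [← (Fin.consEquiv (fun _ : Fin (k + 1) => κ → Fin (d + 1))).sum_comp, Fintype.sum_prod_type]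
          refine Finset.sum_congr rfl fun l _ => ?_
          rw [hWe, Finset.sum_mul]
          refine Finset.sum_congr rfl fun e _ => ?_
          have h2 : mg v x ((Fin.consEquiv (fun _ : Fin (k + 1) => κ → Fin (d + 1))) (l, e)) =
              (∏ i, v 0 (x 0) i ^ (l i : ℕ)) * mg (fun j => v j.succ) x' e := by
            rw [mg, Fin.prod_univ_succ, mg, ← hxx']
            rfl
          rw [h2]
          have h3 : ((Fin.consEquiv (fun _ : Fin (k + 1) => κ → Fin (d + 1))) (l, e)) =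
            (Fin.cons l e : Fin (k + 1) → κ → Fin (d + 1)) := rfl
          rw [h3]
          ring
        have hl₀c : (Fin.cons (l₀ 0) (fun j : Fin k => l₀ j.succ) : Fin (k + 1) → κ → Fin (d + 1)) = l₀ :=
          Fin.cons_self_tail l₀
        have hbig : (H ^ Bk)⁻¹ * ‖∑ s, ξ s * (c l₀ s : ℂ)‖ < ‖W (l₀ 0)‖ := by
          by_contra hcon
          rw [not_lt] at hcon
          apply hnot
          refine ⟨fun e s => c (Fin.cons (l₀ 0) e) s, fun e s => hc _ _, fun j => l₀ j.succ, ?_, ?_⟩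
          · change ∑ s, ξ s * (c (Fin.cons (l₀ 0) fun j => l₀ j.succ) s : ℂ) ≠ 0
            rw [hl₀c]; exact hl₀
          · change ‖∑ e, (∑ s, ξ s * (c (Fin.cons (l₀ 0) e) s : ℂ)) * mg (fun j => v j.succ) x' e‖ ≤
              (H ^ Bk)⁻¹ * ‖∑ s, ξ s * (c (Fin.cons (l₀ 0) fun j => l₀ j.succ) s : ℂ)‖
            rw [hl₀c, ← hWe]; exact hcon
        have hw0 : 0 < ‖∑ s, ξ s * (c l₀ s : ℂ)‖ := norm_pos_iff.2 hl₀
        refine ⟨fun l p => c (Fin.cons l p.1) p.2, fun l p => hc _ _, l₀ 0, ?_, ?_⟩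
        · intro h0
          have h2 : W (l₀ 0) = 0 := h0
          rw [h2, norm_zero] at hbig
          have : 0 < (H ^ Bk)⁻¹ := by positivity
          have := mul_pos this hw0
          linarith
        · change ‖∑ l, W l * ∏ i, v 0 (x 0) i ^ (l i : ℕ)‖ ≤ (H ^ B1)⁻¹ * ‖W (l₀ 0)‖
          rw [← htot]
          refine hs.trans ?_
          rw [pow_add, mul_inv, mul_assoc]
          exact mul_le_mul_of_nonneg_left hbig.le (by positivity)
    -- counting
    have hsplit := Finset.card_filter_add_card_filter_not (s := Y)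
      (p := fun x : Fin (k + 1) → α => (fun j : Fin k => x j.succ) ∈ Z)
    have hp1 : ((Y.filter fun x : Fin (k + 1) → α => (fun j : Fin k => x j.succ) ∈ Z).card : ℝ) ≤
        (C₀ * (T : ℝ) ^ μ) * (Ck * (T : ℝ) ^ ((k : ℝ) * μ - ck)) := by
      have hle : (Y.filter fun x : Fin (k + 1) → α => (fun j : Fin k => x j.succ) ∈ Z).card ≤
          (X 0 T ×ˢ Z).card := by
        refine Finset.card_le_card_of_injOn (fun t => (t 0, fun j : Fin k => t j.succ)) ?_ ?_
        · intro t ht
          rw [Finset.mem_coe, Finset.mem_filter] at ht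
          rw [Finset.mem_coe, Finset.mem_product]
          exact ⟨Fintype.mem_piFinset.1 (hY ht.1) 0, ht.2⟩
        · intro t _ t' _ heq
          simp only [Prod.mk.injEq] at heq
          funext j
          refine Fin.cases heq.1 (fun i => congrFun heq.2 i) j
      rw [Finset.card_product] at hle
      have h2 : ((X 0 T).card : ℝ) ≤ C₀ * (T : ℝ) ^ μ := hX 0 T hT
      calc ((Y.filter fun x : Fin (k + 1) → α => (fun j : Fin k => x j.succ) ∈ Z).card : ℝ) ≤
            (X 0 T).card * Z.card := by exact_mod_cast hle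
        _ ≤ (C₀ * (T : ℝ) ^ μ) * (Ck * (T : ℝ) ^ ((k : ℝ) * μ - ck)) := mul_le_mul h2 hZc (Nat.cast_nonneg _) (by positivity)
    have hp2 : ((Y.filter fun x : Fin (k + 1) → α => ¬ (fun j : Fin k => x j.succ) ∈ Z).card : ℝ) ≤
        (C₀ * (T : ℝ) ^ μ) ^ k * (C1 * (T : ℝ) ^ (μ - c1)) := by
      have h2 := Finset.card_eq_sum_card_fiberwise (s := Y.filter fun x : Fin (k + 1) → α =>
          ¬ (fun j : Fin k => x j.succ) ∈ Z) (t := Fintype.piFinset fun j : Fin k => X j.succ T)
        (f := fun x => fun j : Fin k => x j.succ) (by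
          intro x hx
          rw [Finset.mem_coe, Finset.mem_filter] at hx
          exact hYt x hx.1)
      rw [h2]
      push_cast
      have hC1T : 0 ≤ C1 * (T : ℝ) ^ (μ - c1) := by positivity
      calc ∑ x' ∈ Fintype.piFinset fun j : Fin k => X j.succ T,
            ((((Y.filter fun x : Fin (k + 1) → α => ¬ (fun j : Fin k => x j.succ) ∈ Z).filter
              fun x => (fun j : Fin k => x j.succ) = x').card : ℕ) : ℝ)
          ≤ ∑ x' ∈ Fintype.piFinset fun j : Fin k => X j.succ T, C1 * (T : ℝ) ^ (μ - c1) := by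
            refine Finset.sum_le_sum fun x' _ => ?_
            by_cases hx' : x' ∈ Z
            · have h3 : ((Y.filter fun x : Fin (k + 1) → α => ¬ (fun j : Fin k => x j.succ) ∈ Z).filter
                  fun x => (fun j : Fin k => x j.succ) = x') = ∅ := by
                rw [Finset.eq_empty_iff_forall_notMem]
                intro x hx
                rw [Finset.mem_filter, Finset.mem_filter] at hx
                exact hx.1.2 (hx.2 ▸ hx')
              rw [h3, Finset.card_empty, Nat.cast_zero]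
              exact hC1T
            · refine le_trans ?_ (hfib x' hx')
              exact_mod_cast Finset.card_le_card (Finset.filter_subset_filter _ (Finset.filter_subset _ _))
        _ = ((Fintype.piFinset fun j : Fin k => X j.succ T).card : ℝ) * (C1 * (T : ℝ) ^ (μ - c1)) := by
            rw [Finset.sum_const, nsmul_eq_mul]
        _ ≤ (C₀ * (T : ℝ) ^ μ) ^ k * (C1 * (T : ℝ) ^ (μ - c1)) := by
            refine mul_le_mul_of_nonneg_right ?_ hC1T
            rw [Fintype.card_piFinset]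
            push_cast
            calc ∏ j : Fin k, ((X j.succ T).card : ℝ) ≤ ∏ _j : Fin k, (C₀ * (T : ℝ) ^ μ) :=
                  Finset.prod_le_prod (fun _ _ => Nat.cast_nonneg _) fun j _ => hX j.succ T hT
              _ = (C₀ * (T : ℝ) ^ μ) ^ k := by simp
    have hYc : (Y.card : ℝ) = ((Y.filter fun x : Fin (k + 1) → α => (fun j : Fin k => x j.succ) ∈ Z).card : ℝ) +
        ((Y.filter fun x : Fin (k + 1) → α => ¬ (fun j : Fin k => x j.succ) ∈ Z).card : ℝ) := by
      exact_mod_cast hsplit.symm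
    rw [hYc]
    have hmin1 : min ck c1 ≤ ck := min_le_left _ _
    have hmin2 : min ck c1 ≤ c1 := min_le_right _ _
    have he1 : (C₀ * (T : ℝ) ^ μ) * (Ck * (T : ℝ) ^ ((k : ℝ) * μ - ck)) ≤
        C₀ * Ck * (T : ℝ) ^ (((k + 1 : ℕ) : ℝ) * μ - min ck c1) := by
      have h3 : (C₀ * (T : ℝ) ^ μ) * (Ck * (T : ℝ) ^ ((k : ℝ) * μ - ck)) =
          C₀ * Ck * (T : ℝ) ^ (((k + 1 : ℕ) : ℝ) * μ - ck) := by
        have h4 : (((k + 1 : ℕ) : ℝ) * μ - ck) = μ + ((k : ℝ) * μ - ck) := by push_cast; ring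
        rw [h4, Real.rpow_add hTp]
        ring
      rw [h3]
      exact mul_le_mul_of_nonneg_left (Real.rpow_le_rpow_of_exponent_le hTR (by linarith)) (by positivity)
    have he2 : (C₀ * (T : ℝ) ^ μ) ^ k * (C1 * (T : ℝ) ^ (μ - c1)) ≤
        C₀ ^ k * C1 * (T : ℝ) ^ (((k + 1 : ℕ) : ℝ) * μ - min ck c1) := by
      have h3 : (C₀ * (T : ℝ) ^ μ) ^ k * (C1 * (T : ℝ) ^ (μ - c1)) =
          C₀ ^ k * C1 * (T : ℝ) ^ (((k + 1 : ℕ) : ℝ) * μ - c1) := by
        have h4 : (((k + 1 : ℕ) : ℝ) * μ - c1) = (k : ℝ) * μ + (μ - c1) := by push_cast; ring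
        have h5 : ((T : ℝ) ^ μ) ^ k = (T : ℝ) ^ ((k : ℝ) * μ) := by
          rw [← Real.rpow_natCast, ← Real.rpow_mul hTp.le, mul_comm]
        rw [h4, Real.rpow_add hTp, mul_pow, h5]
        ring
      rw [h3]
      exact mul_le_mul_of_nonneg_left (Real.rpow_le_rpow_of_exponent_le hTR (by linarith)) (by positivity)
    calc _ ≤ (C₀ * (T : ℝ) ^ μ) * (Ck * (T : ℝ) ^ ((k : ℝ) * μ - ck)) +
          (C₀ * (T : ℝ) ^ μ) ^ k * (C1 * (T : ℝ) ^ (μ - c1)) := add_le_add hp1 hp2
      _ ≤ C₀ * Ck * (T : ℝ) ^ (((k + 1 : ℕ) : ℝ) * μ - min ck c1) +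
          C₀ ^ k * C1 * (T : ℝ) ^ (((k + 1 : ℕ) : ℝ) * μ - min ck c1) := add_le_add he1 he2
      _ = _ := by ring

end Pool.Agent.Q246.NR2
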