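import Pool.Agent.Y333.SL.ValcS
import Pool.Agent.Y916.Sl.Ell
import Pool.Agent.Q246.NR.Valc
import Pool.Agent.Q246.NR.Elim
import Pool.Agent.Q246.NR2.Win

/-!
# Elliptic and hyperelliptic integrals: the input for near relations

The quantitative form of `Pool.Agent.Y333.SL.valcS_of`.
-/

set_option autoImplicit false

open PowerSeries

namespace Pool.Agent.Q246.NR2

open Pool.Agent.Y113 Pool.Agent.Y916.Hy Pool.Agent.Y916.Sa Pool.Agent.Y120.GF Pool.Agent.Y960.SA Pool.Agent.Y916.Al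
  Pool.Agent.Y333.SL Pool.Agent.Q246.NR

theorem valcSN_of (hrt : S_rt) (halg : S_alg) (heint : S_eint) (hkap : S_kap) :
    ∀ (s : ℕ) (P : Fin s → Polynomial ℤ) (m : Fin s → ℕ),
  (∀ a, GoodO (P a) ∧ m a < (P a).natDegree) → LI P m → ∀ N Δ d A : ℕ, ∃ E B : ℕ, ∀ (H : ℕ) (K : IntermediateField ℚ ℂ)
  (x : K) (X : ℝ), FiniteDimensional ℚ K → Module.finrank ℚ K ≤ d → x ≠ 0 → Pt K x X →
  ‖(x : ℂ)‖ * ((H : ℝ) + 2) ^ E ≤ 1 → X * ‖(x : ℂ)‖ ^ A ≤ 1 →
  ∀ g : Fin N → ℕ, Function.Injective g → (∀ l, 1 ≤ g l ∧ g l ≤ H) →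
  Low (fun i : Fin N × Tau m => evc (x : ℂ) (Yg P m (g i.1) i.2)) Δ B := by
  classical
  intro s P m hP hLI N Δ d A
  obtain ⟨D, hD⟩ := exists_D m N Δ (2 * A * d)
  obtain ⟨q, E₁, hE₁⟩ := gs_of hrt halg heint hkap s P m hP N (D + Δ)
  choose E₂f Bxf hE₂f using fun n => GKN d A n q
  set Nk := Fintype.card (Finset (Fin s × Fin N) × (Fin N → Dx m (D + Δ))) with hNk
  set E₂ := ∑ n ∈ Finset.range (Nk + 1), E₂f n with hE₂
  set Bx := ∑ n ∈ Finset.range (Nk + 1), Bxf n with hBx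
  refine ⟨(E₁ + 1) * E₂ + E₁, Bx + 1, fun H K x X hfd hrk hx0 hPt hxE hXA g hg hgH => ?_⟩
  have hHB : (1 : ℝ) ≤ (H : ℝ) + 2 := one_le_base H
  have hxR : ∀ a, a ≤ (E₁ + 1) * E₂ + E₁ → ‖(x : ℂ)‖ * ((H : ℝ) + 2) ^ a ≤ 1 := fun a ha =>
    (mul_le_mul_of_nonneg_left (base_mono hHB ha) (norm_nonneg _)).trans hxE
  have hx0' : (x : ℂ) ≠ 0 := by exact_mod_cast hx0
  obtain ⟨J, hJ, hind⟩ := hLI N g hg fun l => (hgH l).1
  obtain ⟨T, hG, hT⟩ := hE₁ H g (fun l => (hgH l).2) J hJ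
  obtain ⟨hTx, hcr, hcv⟩ := hT (x : ℂ) hx0' (hxR _ (by omega))
  -- the functions are linearly independent
  have hlin : LinearIndependent (Polynomial ℚ) (wf P m (D + Δ) g J) := by
    have h1 := hind.comp (fun p : KI m (D + Δ) J => (p.1, DD m (D + Δ) p.2)) (by
      intro p p' h
      have e1 := congrArg Prod.fst h
      have e2 := congrArg Prod.snd h
      exact Prod.ext e1 (DD_inj m (D + Δ) e2))
    have h2 : wf P m (D + Δ) g J = (fun p : {T : Finset (Fin s × Fin N) // T ⊆ J} × (Fin N × Tau m →₀ ℕ) =>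
          (∏ i ∈ p.1.1, Rt (phi (P i.1) (g i.2))) * p.2.prod fun x e => Yg P m (g x.1) x.2 ^ e) ∘
          (fun p : KI m (D + Δ) J => (p.1, DD m (D + Δ) p.2)) := by
      funext p
      exact wf_eq P m (D + Δ) g J p
    rw [h2]
    exact h1
  -- the values of the monomials
  have hmo : ∀ p : KI m (D + Δ) J, evc (x : ℂ) (wf P m (D + Δ) g J p) =
      (∏ i ∈ p.1.1, evc (x : ℂ) (rt P g i)) *
        ∏ i, (evc (x : ℂ) (Yg P m (g i.1) i.2)) ^ (DD m (D + Δ) p.2 i) := by
    intro p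
    have h3 : wf P m (D + Δ) g J p = (∏ i ∈ p.1.1, rt P g i) *
        ∏ i, Yg P m (g i.1) i.2 ^ (DD m (D + Δ) p.2 i) := by
      rw [wf_eq P m (D + Δ) g J p, Finsupp.prod_fintype _ _ (fun _ => pow_zero _)]
      rfl
    rw [h3, (Cvc.prod _ _ fun i _ => hcr i).ev_mul (Cvc.prod _ _ fun i _ => (hcv i).pow _),
      Cvc.ev_prod _ _ (fun i _ => hcr i), Cvc.ev_prod _ _ (fun i _ => (hcv i).pow _)]
    congr 1
    exact Finset.prod_congr rfl fun i _ => (hcv i).ev_pow _
  -- enumeration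
  have hcard : Fintype.card (KI m (D + Δ) J) ≤ Nk := by
    rw [hNk, Fintype.card_prod, Fintype.card_prod]
    refine Nat.mul_le_mul_right _ ?_
    exact Fintype.card_subtype_le _
  let eqv : Fin (Fintype.card (KI m (D + Δ) J)) ≃ KI m (D + Δ) J := (Fintype.equivFin _).symm
  let eqv' : Fin (Fintype.card (KI m D J)) ≃ KI m D J := (Fintype.equivFin _).symm
  obtain ⟨b₀, hb₀⟩ := exists_d' m (D + Δ) (N := N) 0 (by simp)
  let e₀ : KI m (D + Δ) J := (⟨∅, Finset.empty_subset J⟩, b₀)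
  have hE₂le : E₂f (Fintype.card (KI m (D + Δ) J)) ≤ E₂ :=
    Finset.single_le_sum (f := E₂f) (fun _ _ => Nat.zero_le _) (Finset.mem_range.2 (by omega))
  have hBxle : Bxf (Fintype.card (KI m (D + Δ) J)) ≤ Bx :=
    Finset.single_le_sum (f := Bxf) (fun _ _ => Nat.zero_le _) (Finset.mem_range.2 (by omega))
  obtain ⟨c, hc, hGK⟩ := hE₂f _ _ T (fun j => wf P m (D + Δ) g J (eqv j)) (eqv.symm e₀) K x X hfd hrk hx0 hPt
    (hG.reindex eqv) (by
      rw [Equiv.apply_symm_apply, wf_eq P m (D + Δ) g J e₀]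
      dsimp only [e₀]
      rw [hb₀]
      simp) (hlin.comp _ eqv.injective) (by
      refine (mul_le_mul_of_nonneg_left ?_ (norm_nonneg _)).trans (hxR ((E₁ + 1) * E₂) (by omega))
      exact (pow_base H _ _).trans (base_mono hHB (Nat.mul_le_mul_left _ hE₂le))) hXA hTx
  -- the size of the factors
  set v : Fin N × Tau m → ℂ := fun i => evc (x : ℂ) (Yg P m (g i.1) i.2) with hv
  set mult : KI m D J → ℂ := fun p => (∏ i ∈ p.1.1, evc (x : ℂ) (rt P g i)) * ∏ i, v i ^ (DD m D p.2 i) with hmult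
  set M₀ : ℝ := 1 + ∑ p : KI m D J, ‖mult p‖ with hM₀
  have hM₀1 : 1 ≤ M₀ := by
    have : 0 ≤ ∑ p : KI m D J, ‖mult p‖ := Finset.sum_nonneg fun _ _ => norm_nonneg _
    linarith
  refine ⟨max 1 (M₀ / c), fun h hh Q hQ0 hQ hlen => ?_⟩
  have hh1 : 1 ≤ h := (le_max_left _ _).trans hh
  have hh0 : 0 < h := by linarith
  have hhc : M₀ ≤ h * c := by
    have := (le_max_right _ _).trans hh
    rwa [div_le_iff₀ hc] at this
  -- the polynomial over `K`
  set QK : MvPolynomial (Fin N × Tau m) K := MvPolynomial.map (Int.castRingHom K) Q with hQK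
  have hcast : Function.Injective (Int.castRingHom K) := RingHom.injective_int (Int.castRingHom K)
  have hQK0 : QK ≠ 0 := by
    intro h1
    apply hQ0
    apply MvPolynomial.map_injective (Int.castRingHom K) hcast
    rw [← hQK, h1, map_zero]
  have hQKd : QK.totalDegree ≤ Δ := by
    refine le_trans ?_ hQ
    unfold MvPolynomial.totalDegree
    exact Finset.sup_mono (MvPolynomial.support_map_subset _ _)
  have hQKv : MvPolynomial.aeval v QK = MvPolynomial.aeval v Q := by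
    rw [hQK, MvPolynomial.aeval_def, MvPolynomial.eval₂_map, MvPolynomial.aeval_def]
    congr 1
  have hcoef : ∀ e, ∃ n : ℤ, QK.coeff e = n ∧ |(n : ℝ)| ≤ h := by
    intro e
    refine ⟨Q.coeff e, by rw [hQK, MvPolynomial.coeff_map]; rfl, ?_⟩
    have h1 := norm_coeff_le_len Q e
    rw [Int.norm_eq_abs] at h1
    exact h1.trans hlen
  have hvec : ∀ (e' : Fin N → Dx m D) (e : Fin N → Dx m (D + Δ)), ∃ n : ℤ, vec m QK (D + Δ) e' e = n ∧ |(n : ℝ)| ≤ h := by
    intro e' e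
    unfold vec
    rw [MvPolynomial.coeff_mul_monomial']
    split_ifs with h1
    · rw [mul_one]
      exact hcoef _
    · exact ⟨0, by simp, by simpa using hh0.le⟩
  have hmain := hGK (Fintype.card (KI m D J))
    (fun r j => if (eqv j).1 = (eqv' r).1 then vec m QK (D + Δ) (eqv' r).2 (eqv j).2 else 0) h
    (‖MvPolynomial.aeval v Q‖ * M₀) ?_ ?_ hh1 (by positivity) ?_ ?_ ?_
  · have h1 : h ^ Bxf (Fintype.card (KI m (D + Δ) J)) ≤ h ^ Bx := pow_le_pow_right₀ hh1 hBxle
    have h2 : c ≤ ‖MvPolynomial.aeval v Q‖ * M₀ * h ^ Bx :=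
      hmain.trans (mul_le_mul_of_nonneg_left h1 (by positivity))
    have h3 : c * 1 ≤ c * (h ^ (Bx + 1) * ‖MvPolynomial.aeval v Q‖) := by
      calc c * 1 ≤ ‖MvPolynomial.aeval v Q‖ * M₀ * h ^ Bx := by rw [mul_one]; exact h2
        _ ≤ ‖MvPolynomial.aeval v Q‖ * (h * c) * h ^ Bx := by gcongr
        _ = _ := by ring
    exact le_of_mul_le_mul_left h3 hc
  · rw [Fintype.linearIndependent_iff]
    intro c hc r
    set T' := (eqv' r).1 with hT'
    have h1 := vec_indep m (D := D) QK hQK0 hQKd (fun e' => c (eqv'.symm (T', e'))) (by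
      intro e
      have h2 := congrFun hc (eqv.symm (T', e))
      rw [Finset.sum_apply] at h2
      simp only [Pi.smul_apply, smul_eq_mul, Equiv.apply_symm_apply, Pi.zero_apply] at h2
      rw [← Equiv.sum_comp eqv'.symm, Fintype.sum_prod_type, Finset.sum_eq_single T'] at h2
      · simp only [Equiv.apply_symm_apply, if_true] at h2
        exact h2
      · intro T'' _ hne
        refine Finset.sum_eq_zero fun e' _ => ?_
        rw [Equiv.apply_symm_apply, if_neg (fun h => hne h.symm), mul_zero]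
      · intro h
        exact absurd (Finset.mem_univ _) h) (eqv' r).2
    have h3 : (T', (eqv' r).2) = eqv' r := rfl
    rw [h3, Equiv.symm_apply_apply] at h1
    exact h1
  · intro r j
    split_ifs with h1
    · obtain ⟨n, hn, -⟩ := hvec (eqv' r).2 (eqv j).2
      rw [hn]
      exact isIntegral_algebraMap (x := n)
    · exact isIntegral_zero
  · intro r j σ
    split_ifs with h1
    · obtain ⟨n, hn, hnb⟩ := hvec (eqv' r).2 (eqv j).2
      rw [hn, map_intCast, Complex.norm_intCast]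
      exact hnb
    · rw [map_zero, norm_zero]
      exact hh0.le
  · intro r
    set p' := eqv' r with hp'
    have h2 : ∀ δ ∈ (QK * MvPolynomial.monomial (DD m D p'.2) (1 : K)).support, ∀ l, ∑ x, δ (l, x) ≤ D + Δ := by
      refine supp_mul m QK _ hQKd fun δ hδ => ?_
      have h3 := MvPolynomial.support_monomial_subset hδ
      rw [Finset.mem_singleton] at h3
      rw [h3]
      exact DD_sum m p'.2
    have h1 : MvPolynomial.aeval v (QK * MvPolynomial.monomial (DD m D p'.2) (1 : K)) =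
        MvPolynomial.aeval v Q * ∏ i, v i ^ (DD m D p'.2 i) := by
      rw [map_mul, hQKv, MvPolynomial.aeval_monomial, map_one, one_mul, Finsupp.prod_fintype _ _ (fun _ => pow_zero _)]
    rw [aeval_sum m _ h2] at h1
    have h5 : ∑ i, ((if (eqv i).1 = p'.1 then vec m QK (D + Δ) p'.2 (eqv i).2 else 0 : K) : ℂ) *
        evc (x : ℂ) (wf P m (D + Δ) g J (eqv i)) = MvPolynomial.aeval v Q * mult p' := by
      rw [Equiv.sum_comp eqv (fun p => ((if p.1 = p'.1 then vec m QK (D + Δ) p'.2 p.2 else 0 : K) : ℂ) *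
        evc (x : ℂ) (wf P m (D + Δ) g J p)), Fintype.sum_prod_type, Finset.sum_eq_single p'.1]
      · have h4 : ∀ e : Fin N → Dx m (D + Δ), ((if p'.1 = p'.1 then vec m QK (D + Δ) p'.2 e else 0 : K) : ℂ) *
            evc (x : ℂ) (wf P m (D + Δ) g J (p'.1, e)) = (∏ i ∈ p'.1.1, evc (x : ℂ) (rt P g i)) *
              (algebraMap K ℂ (MvPolynomial.coeff (DD m (D + Δ) e)
                (QK * MvPolynomial.monomial (DD m D p'.2) (1 : K))) *
                ∏ i, (evc (x : ℂ) (Yg P m (g i.1) i.2)) ^ (DD m (D + Δ) e i)) := by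
          intro e
          rw [if_pos rfl, hmo]
          unfold vec
          show ((MvPolynomial.coeff (DD m (D + Δ) e)
                (QK * MvPolynomial.monomial (DD m D p'.2) (1 : K)) : K) : ℂ) * _ = _ * (((MvPolynomial.coeff
                  (DD m (D + Δ) e) (QK * MvPolynomial.monomial (DD m D p'.2) (1 : K)) : K) : ℂ) * _)
          ring
        rw [Finset.sum_congr rfl fun e _ => h4 e, ← Finset.mul_sum, h1, hmult]
        ring
      · intro T'' _ hne
        refine Finset.sum_eq_zero fun e _ => ?_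
        rw [if_neg hne]
        simp
      · intro h
        exact absurd (Finset.mem_univ _) h
    rw [h5, norm_mul]
    refine mul_le_mul_of_nonneg_left ?_ (norm_nonneg _)
    have h6 := Finset.single_le_sum (f := fun p : KI m D J => ‖mult p‖) (fun _ _ => norm_nonneg _) (Finset.mem_univ p')
    have h7 : ‖mult p'‖ ≤ ∑ p : KI m D J, ‖mult p‖ := h6
    linarith
  · rw [Fintype.card_prod, Fintype.card_prod, ← Nat.mul_sub]
    calc 2 * A * d * (Fintype.card {T : Finset (Fin s × Fin N) // T ⊆ J} *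
          (Fintype.card (Fin N → Dx m (D + Δ)) - Fintype.card (Fin N → Dx m D)))
        = Fintype.card {T : Finset (Fin s × Fin N) // T ⊆ J} * (2 * A * d *
          (Fintype.card (Fin N → Dx m (D + Δ)) - Fintype.card (Fin N → Dx m D))) := by ring
      _ ≤ _ := Nat.mul_le_mul_left _ hD

/-- the statement without hypotheses -/
theorem inpN_S {s : ℕ} {P : Fin s → Polynomial ℤ} {m : Fin s → ℕ} (hP : ∀ a, GoodO (P a) ∧ m a < (P a).natDegree)
    (hLI : LI P m) : InpN (Pool.Agent.Y916.Sl.vS P m) := by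
  intro N Δ d A
  obtain ⟨E, B, hE⟩ := valcSN_of Pool.Agent.Y419.HY.t_rt Pool.Agent.Y419.HY.t_alg Pool.Agent.Y419.HY.t_eint
    (Pool.Agent.Y201.SA.t_kap Pool.Agent.Y419.HY.t_rt) s P m hP hLI N Δ d A
  refine ⟨E, B, fun H K ξ X hKf hKd hPt hξ hX g hg hgb => ?_⟩
  have h1 : (1 : ℝ) ≤ ((H : ℝ) + 2) ^ E := one_le_pow₀ (by linarith [(Nat.cast_nonneg H : (0 : ℝ) ≤ H)])
  have hξ0 : (0 : ℝ) < ‖(ξ : ℂ)‖ := by linarith
  have hξ1 : ξ ≠ 0 := by
    rintro rfl
    simp at hξ0
  have hX0 : 0 ≤ X := by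
    obtain ⟨u, w, -, -, -, -, hσ⟩ := hPt
    exact (norm_nonneg _).trans (hσ (algebraMap K ℂ)).1
  have hPt' := Pt.inv hX0 hξ1 hPt 1 le_rfl
  have e1 : (1 / (((1 : ℕ) : K) * ξ) : K) = 1 / ξ := by simp
  have e2 : (((1 : ℕ) : ℝ)) * X = X := by simp
  rw [e1, e2] at hPt'
  have e3 : ((1 / ξ : K) : ℂ) = 1 / (ξ : ℂ) := by push_cast; ring
  have h2 := hE H K (1 / ξ) X hKf hKd (one_div_ne_zero hξ1) hPt' (by
    rw [e3, norm_div, norm_one, div_mul_eq_mul_div, one_mul, div_le_one hξ0]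
    exact hξ) (by
    rw [e3, norm_div, norm_one, div_pow, one_pow, mul_one_div, div_le_one (by positivity)]
    exact hX) g hg hgb
  rw [e3] at h2
  exact h2

end Pool.Agent.Q246.NR2
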